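import Mathlib

set_option autoImplicit false

namespace Pool.Agent.H.MP_58cc54_co

open Finset

/-- elementary symmetric sums -/
noncomputable def es (P : Finset ℕ) (g : ℕ → ℝ) (j : ℕ) : ℝ :=
  ∑ S ∈ P.powersetCard j, ∏ p ∈ S, g p

noncomputable def trunc (P : Finset ℕ) (g : ℕ → ℝ) (K : ℕ) : ℝ :=
  ∑ j ∈ range K, (-1 : ℝ) ^ j * es P g j

lemma es_zero (P : Finset ℕ) (g : ℕ → ℝ) : es P g 0 = 1 := by
  simp [es]

lemma es_empty (g : ℕ → ℝ) (j : ℕ) : es ∅ g (j + 1) = 0 := by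
  unfold es
  rw [powersetCard_eq_empty.mpr (by simp)]
  simp

lemma es_insert (P : Finset ℕ) (g : ℕ → ℝ) (q : ℕ) (hq : q ∉ P) (j : ℕ) :
    es (insert q P) g (j + 1) = es P g (j + 1) + g q * es P g j := by
  unfold es
  rw [powersetCard_succ_insert hq j, sum_union, sum_image, mul_sum]
  · congr 1
    refine sum_congr rfl fun S hS => ?_
    have : q ∉ S := fun h => hq ((mem_powersetCard.mp hS).1 h)
    rw [prod_insert this]
  · intro S hS T hT h
    have h1 : q ∉ S := fun h => hq ((mem_powersetCard.mp hS).1 h)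
    have h2 : q ∉ T := fun h => hq ((mem_powersetCard.mp hT).1 h)
    have := congrArg (fun s => s.erase q) h
    simpa [erase_insert h1, erase_insert h2] using this
  · rw [disjoint_left]
    intro S hS hS'
    obtain ⟨T, _, rfl⟩ := mem_image.mp hS'
    exact hq ((mem_powersetCard.mp hS).1 (mem_insert_self _ _))

lemma es_nonneg (P : Finset ℕ) (g : ℕ → ℝ) (hg : ∀ p ∈ P, 0 ≤ g p) (j : ℕ) : 0 ≤ es P g j :=
  sum_nonneg fun _ hS => prod_nonneg fun p hp => hg p ((mem_powersetCard.mp hS).1 hp)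

lemma trunc_insert (P : Finset ℕ) (g : ℕ → ℝ) (q : ℕ) (hq : q ∉ P) (K : ℕ) :
    trunc (insert q P) g (K + 1) = trunc P g (K + 1) - g q * trunc P g K := by
  unfold trunc
  rw [sum_range_succ', sum_range_succ' (fun j => (-1 : ℝ) ^ j * es P g j), es_zero, es_zero,
    mul_sum]
  simp only [es_insert P g q hq]
  rw [add_sub_right_comm, ← sum_sub_distrib]
  congr 1
  refine sum_congr rfl fun j _ => ?_
  ring

lemma bonf_aux (g : ℕ → ℝ) (P : Finset ℕ) (hg : ∀ p ∈ P, 0 ≤ g p ∧ g p ≤ 1) :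
    ∀ K : ℕ, 0 ≤ (-1 : ℝ) ^ K * (∏ p ∈ P, (1 - g p) - trunc P g K) ∧
      (-1 : ℝ) ^ K * (∏ p ∈ P, (1 - g p) - trunc P g K) ≤ es P g K := by
  induction P using Finset.induction_on with
  | empty =>
    intro K
    cases K with
    | zero => simp [trunc, es_zero]
    | succ K =>
      have : trunc ∅ g (K + 1) = 1 := by
        unfold trunc
        rw [sum_range_succ']
        simp [es_empty, es_zero]
      simp [this, es_empty]
  | insert q P hq ih =>
    have ih := ih fun p hp => hg p (mem_insert_of_mem hp)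
    have hq0 := (hg q (mem_insert_self _ _)).1
    have hq1 := (hg q (mem_insert_self _ _)).2
    intro K
    cases K with
    | zero =>
      simp only [trunc, range_zero, sum_empty, pow_zero, one_mul, sub_zero, es_zero]
      exact ⟨prod_nonneg fun p hp => by linarith [(hg p hp).2],
        prod_le_one (fun p hp => by linarith [(hg p hp).2]) fun p hp => by linarith [(hg p hp).1]⟩
    | succ K =>
      rw [trunc_insert P g q hq, es_insert P g q hq, prod_insert hq]
      obtain ⟨a1, a2⟩ := ih (K + 1)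
      obtain ⟨b1, b2⟩ := ih K
      have e : (-1 : ℝ) ^ (K + 1) * ((1 - g q) * ∏ p ∈ P, (1 - g p) -
          (trunc P g (K + 1) - g q * trunc P g K)) =
          (-1 : ℝ) ^ (K + 1) * (∏ p ∈ P, (1 - g p) - trunc P g (K + 1)) +
            g q * ((-1 : ℝ) ^ K * (∏ p ∈ P, (1 - g p) - trunc P g K)) := by
        ring
      rw [e]
      constructor
      · have := mul_nonneg hq0 b1
        linarith
      · have := mul_le_mul_of_nonneg_left b2 hq0
        linarith

lemma bonf (g : ℕ → ℝ) (P : Finset ℕ) (hg : ∀ p ∈ P, 0 ≤ g p ∧ g p ≤ 1) (K : ℕ) :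
    |∏ p ∈ P, (1 - g p) - trunc P g K| ≤ es P g K := by
  obtain ⟨h1, h2⟩ := bonf_aux g P hg K
  have : |∏ p ∈ P, (1 - g p) - trunc P g K| =
      |(-1 : ℝ) ^ K * (∏ p ∈ P, (1 - g p) - trunc P g K)| := by
    rw [abs_mul, abs_pow, abs_neg, abs_one, one_pow, one_mul]
  rw [this, abs_of_nonneg h1]
  exact h2

lemma es_le_exp (g : ℕ → ℝ) (P : Finset ℕ) (hg : ∀ p ∈ P, 0 ≤ g p) (K : ℕ) :
    8 ^ K * es P g K ≤ Real.exp (8 * ∑ p ∈ P, g p) := by
  have h1 : 8 ^ K * es P g K ≤ ∏ p ∈ P, (1 + 8 * g p) := by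
    rw [prod_one_add, es, mul_sum]
    calc ∑ S ∈ P.powersetCard K, 8 ^ K * ∏ p ∈ S, g p
        = ∑ S ∈ P.powersetCard K, ∏ p ∈ S, (8 * g p) := by
          refine sum_congr rfl fun S hS => ?_
          rw [prod_mul_distrib, prod_const, (mem_powersetCard.mp hS).2]
      _ ≤ _ := by
          refine sum_le_sum_of_subset_of_nonneg (fun S hS => ?_) fun S hS _ => ?_
          · exact mem_powerset.mpr (mem_powersetCard.mp hS).1
          · exact prod_nonneg fun p hp => by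
              have := hg p (mem_powerset.mp hS hp)
              positivity
  refine h1.trans ?_
  rw [mul_sum, Real.exp_sum]
  refine prod_le_prod (fun p hp => ?_) fun p _ => ?_
  · have := hg p hp
    positivity
  · linarith [Real.add_one_le_exp (8 * g p)]

lemma one_sub_ge_exp (x : ℝ) (h0 : 0 ≤ x) (h1 : x ≤ 1 / 2) : Real.exp (-(2 * x)) ≤ 1 - x := by
  have h2 : 1 + 2 * x ≤ Real.exp (2 * x) := by linarith [Real.add_one_le_exp (2 * x)]
  rw [Real.exp_neg, inv_le_iff_one_le_mul₀ (Real.exp_pos _)]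
  have : 1 ≤ (1 - x) * (1 + 2 * x) := by nlinarith
  have h3 : (1 - x) * (1 + 2 * x) ≤ (1 - x) * Real.exp (2 * x) :=
    mul_le_mul_of_nonneg_left h2 (by linarith)
  linarith

lemma prod_ge_exp (g : ℕ → ℝ) (P : Finset ℕ) (hg : ∀ p ∈ P, 0 ≤ g p ∧ g p ≤ 1 / 2) (l : ℝ)
    (hl : ∑ p ∈ P, g p ≤ l) : Real.exp (-(2 * l)) ≤ ∏ p ∈ P, (1 - g p) := by
  calc Real.exp (-(2 * l)) ≤ Real.exp (∑ p ∈ P, -(2 * g p)) := by
        apply Real.exp_le_exp.mpr
        rw [sum_neg_distrib, ← mul_sum]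
        linarith
    _ = ∏ p ∈ P, Real.exp (-(2 * g p)) := Real.exp_sum _ _
    _ ≤ _ := prod_le_prod (fun p _ => (Real.exp_pos _).le)
        fun p hp => one_sub_ge_exp _ (hg p hp).1 (hg p hp).2

lemma es_small (g : ℕ → ℝ) (P : Finset ℕ) (hg : ∀ p ∈ P, 0 ≤ g p ∧ g p ≤ 1 / 2) (l : ℝ)
    (hl : ∑ p ∈ P, g p ≤ l) (K : ℕ) (hK : 5 * l + 2 ≤ K) :
    8 * es P g K ≤ ∏ p ∈ P, (1 - g p) := by
  have h1 := es_le_exp g P (fun p hp => (hg p hp).1) K
  have h2 := prod_ge_exp g P hg l hl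
  have h3 : Real.exp 2 ≤ 8 := by
    have := Real.exp_one_lt_d9
    have e : Real.exp 2 = Real.exp 1 * Real.exp 1 := by rw [← Real.exp_add]; norm_num
    rw [e]
    nlinarith [Real.exp_pos 1]
  have h4 : Real.exp (2 * K) ≤ 8 ^ K := by
    rw [mul_comm, Real.exp_nat_mul]
    exact pow_le_pow_left₀ (Real.exp_pos _).le h3 K
  have h5 : 8 ≤ Real.exp 4 := by
    have := Real.add_one_le_exp 2
    have e : Real.exp 4 = Real.exp 2 * Real.exp 2 := by rw [← Real.exp_add]; norm_num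
    rw [e]
    nlinarith
  have h6 : Real.exp (8 * ∑ p ∈ P, g p) * Real.exp 4 ≤ Real.exp (2 * K) * Real.exp (-(2 * l)) := by
    rw [← Real.exp_add, ← Real.exp_add]
    apply Real.exp_le_exp.mpr
    linarith
  have h7 : 0 ≤ es P g K := es_nonneg P g (fun p hp => (hg p hp).1) K
  have h8 : (0 : ℝ) < 8 ^ K := by positivity
  have h9 : 8 ^ K * (8 * es P g K) ≤ 8 ^ K * ∏ p ∈ P, (1 - g p) := by
    calc 8 ^ K * (8 * es P g K) = (8 ^ K * es P g K) * 8 := by ring
      _ ≤ Real.exp (8 * ∑ p ∈ P, g p) * Real.exp 4 :=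
          mul_le_mul h1 h5 (by norm_num) (Real.exp_pos _).le
      _ ≤ Real.exp (2 * K) * Real.exp (-(2 * l)) := h6
      _ ≤ _ := mul_le_mul h4 h2 (Real.exp_pos _).le h8.le
  exact le_of_mul_le_mul_left h9 h8

/-- abstract pure sieve -/
lemma sieve_abs (I P : Finset ℕ) (B : ℕ → ℕ → Prop) [∀ p t, Decidable (B p t)] (g : ℕ → ℝ)
    (hg : ∀ p ∈ P, 0 ≤ g p ∧ g p ≤ 1) (X E : ℝ) (hX : 0 ≤ X) (hE : 0 ≤ E) (K : ℕ)
    (h : ∀ S ⊆ P, S.card ≤ K →
      |((I.filter fun t => ∀ p ∈ S, B p t).card : ℝ) - X * ∏ p ∈ S, g p| ≤ E) :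
    |((I.filter fun t => ∀ p ∈ P, ¬ B p t).card : ℝ) - X * ∏ p ∈ P, (1 - g p)| ≤
      2 * X * es P g K + (K + 1) * (P.card + 1) ^ K * E := by
  set χ : ℕ → ℕ → ℝ := fun t p => if B p t then 1 else 0 with hχ
  have hχ01 : ∀ t, ∀ p ∈ P, 0 ≤ χ t p ∧ χ t p ≤ 1 := by
    intro t p _
    simp only [hχ]
    split_ifs <;> norm_num
  have h1 : ((I.filter fun t => ∀ p ∈ P, ¬ B p t).card : ℝ) = ∑ t ∈ I, ∏ p ∈ P, (1 - χ t p) := by
    rw [card_filter, Nat.cast_sum]
    refine sum_congr rfl fun t _ => ?_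
    split_ifs with hb
    · rw [prod_eq_one]
      · simp
      · intro p hp
        simp [hχ, hb p hp]
    · push Not at hb
      obtain ⟨p, hp, hb⟩ := hb
      rw [prod_eq_zero hp]
      · simp
      · simp [hχ, hb]
  have h2 : ∀ S : Finset ℕ, ((I.filter fun t => ∀ p ∈ S, B p t).card : ℝ) =
      ∑ t ∈ I, ∏ p ∈ S, χ t p := by
    intro S
    rw [card_filter, Nat.cast_sum]
    refine sum_congr rfl fun t _ => ?_
    split_ifs with hb
    · rw [prod_eq_one]
      · simp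
      · intro p hp
        simp [hχ, hb p hp]
    · push Not at hb
      obtain ⟨p, hp, hb⟩ := hb
      rw [prod_eq_zero hp]
      · simp
      · simp [hχ, hb]
  have h3 : ∀ j ≤ K, |∑ t ∈ I, es P (χ t) j - X * es P g j| ≤ (P.card + 1) ^ K * E := by
    intro j hj
    unfold es
    rw [sum_comm, mul_sum, ← sum_sub_distrib]
    refine (abs_sum_le_sum_abs _ _).trans ?_
    calc ∑ S ∈ P.powersetCard j, |∑ t ∈ I, ∏ p ∈ S, χ t p - X * ∏ p ∈ S, g p|
        ≤ ∑ S ∈ P.powersetCard j, E := by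
          refine sum_le_sum fun S hS => ?_
          rw [← h2]
          exact h S (mem_powersetCard.mp hS).1 ((mem_powersetCard.mp hS).2 ▸ hj)
      _ = (P.card.choose j : ℝ) * E := by rw [sum_const, card_powersetCard, nsmul_eq_mul]
      _ ≤ _ := by
          refine mul_le_mul_of_nonneg_right ?_ hE
          have a : P.card.choose j ≤ (P.card + 1) ^ K :=
            (Nat.choose_le_pow _ _).trans ((Nat.pow_le_pow_left (Nat.le_succ _) j).trans
              (Nat.pow_le_pow_right (Nat.succ_pos _) hj))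
          exact_mod_cast a
  have h4 : |∑ t ∈ I, ∏ p ∈ P, (1 - χ t p) - ∑ t ∈ I, trunc P (χ t) K| ≤
      X * es P g K + (P.card + 1) ^ K * E := by
    rw [← sum_sub_distrib]
    refine (abs_sum_le_sum_abs _ _).trans ?_
    refine (sum_le_sum fun t _ => bonf (χ t) P (hχ01 t) K).trans ?_
    have := (abs_le.mp (h3 K le_rfl)).2
    linarith
  have h5 : |∑ t ∈ I, trunc P (χ t) K - X * trunc P g K| ≤ K * ((P.card + 1) ^ K * E) := by
    unfold trunc
    rw [sum_comm, mul_sum, ← sum_sub_distrib]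
    refine (abs_sum_le_sum_abs _ _).trans ?_
    calc ∑ j ∈ range K, |∑ t ∈ I, (-1 : ℝ) ^ j * es P (χ t) j - X * ((-1 : ℝ) ^ j * es P g j)|
        ≤ ∑ j ∈ range K, (P.card + 1 : ℝ) ^ K * E := by
          refine sum_le_sum fun j hj => ?_
          rw [← mul_sum]
          have e : (-1 : ℝ) ^ j * ∑ t ∈ I, es P (χ t) j - X * ((-1 : ℝ) ^ j * es P g j) =
              (-1 : ℝ) ^ j * (∑ t ∈ I, es P (χ t) j - X * es P g j) := by ring
          rw [e, abs_mul, abs_pow, abs_neg, abs_one, one_pow, one_mul]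
          exact h3 j (mem_range.mp hj).le
      _ = _ := by rw [sum_const, card_range, nsmul_eq_mul]
  have h6 : |X * trunc P g K - X * ∏ p ∈ P, (1 - g p)| ≤ X * es P g K := by
    rw [← mul_sub, abs_mul, abs_of_nonneg hX, abs_sub_comm]
    exact mul_le_mul_of_nonneg_left (bonf g P hg K) hX
  rw [h1]
  have a1 := abs_le.mp h4
  have a2 := abs_le.mp h5
  have a3 := abs_le.mp h6
  rw [abs_le]
  constructor <;> nlinarith [a1.1, a1.2, a2.1, a2.2, a3.1, a3.2]

end Pool.Agent.H.MP_58cc54_co
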