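import Pool.Agent.H.MP_58cc54_co.Primes

set_option autoImplicit false

namespace Pool.Agent.H.MP_58cc54_co

open Finset

lemma card_primesIn (a z : ℕ) : (primesIn a z).card ≤ z := by
  unfold primesIn
  refine (card_filter_le _ _).trans ?_
  rw [Nat.card_Ioc]
  omega

lemma card_dvd_range (p : ℕ) (hp : 0 < p) : ((range p).filter fun t => p ∣ t).card = 1 := by
  rw [card_eq_one]
  refine ⟨0, ?_⟩
  ext t
  simp only [mem_filter, mem_range, mem_singleton]
  constructor
  · rintro ⟨h1, h2⟩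
    exact Nat.eq_zero_of_dvd_of_lt h2 h1
  · rintro rfl
    exact ⟨hp, dvd_zero _⟩

lemma per_dvd (p : ℕ) : Per (fun t => p ∣ t) p := fun _ _ h => h.dvd_iff dvd_rfl

def Rough (z e : ℕ) : Prop := ∀ p ∈ primesIn 0 z, ¬ p ∣ e

instance (z : ℕ) : DecidablePred (Rough z) := fun e => by unfold Rough; infer_instance

lemma rough_count (s K : ℕ) (hK : 5 * (4 * s + 1) + 2 ≤ K) (U : ℕ) :
    (((Ico 1 (1 + U)).filter (Rough (2 ^ 2 ^ s))).card : ℝ) ≤
      5 / 2 * U / 2 ^ s + (K + 1) * (2 ^ 2 ^ s + 1) ^ K := by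
  have h := sieve_count (fun _ => True) 1 one_pos (fun _ _ _ => Iff.rfl) (fun p t => p ∣ t)
    (primesIn 0 (2 ^ 2 ^ s)) 1 le_rfl
    (fun p hp => ⟨(mem_primesIn.mp hp).2.2, Nat.coprime_one_left _, per_dvd p⟩)
    (fun p hp => by
      rw [card_dvd_range p (mem_primesIn.mp hp).2.2.pos]
      exact ⟨le_rfl, (mem_primesIn.mp hp).2.2.two_le⟩)
    (4 * s + 1) (by
      refine le_trans (le_of_eq ?_) (sig_zero s)
      refine sum_congr rfl fun p hp => ?_
      rw [card_dvd_range p (mem_primesIn.mp hp).2.2.pos, Nat.cast_one]) K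
    (by exact_mod_cast hK) 1 U
  have e : ∏ p ∈ primesIn 0 (2 ^ 2 ^ s), (1 - (((range p).filter fun t => p ∣ t).card : ℝ) / p) =
      ∏ p ∈ primesIn 0 (2 ^ 2 ^ s), (1 - (1 : ℝ) / p) := by
    refine prod_congr rfl fun p hp => ?_
    rw [card_dvd_range p (mem_primesIn.mp hp).2.2.pos, Nat.cast_one]
  rw [e] at h
  simp only [range_one, filter_true, card_singleton, Nat.cast_one, mul_one, div_one,
    one_pow] at h
  have h1 := V1_le (2 ^ s) (Nat.one_le_two_pow)
  have h2 := (abs_le.mp h).2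
  have h3 : ((primesIn 0 (2 ^ 2 ^ s)).card : ℝ) ≤ 2 ^ 2 ^ s := by
    exact_mod_cast card_primesIn 0 (2 ^ 2 ^ s)
  have h4 : (((primesIn 0 (2 ^ 2 ^ s)).card : ℝ) + 1) ^ K ≤ (2 ^ 2 ^ s + 1) ^ K :=
    pow_le_pow_left₀ (by positivity) (by linarith) K
  have h5 := mul_le_mul_of_nonneg_left h4 (show (0 : ℝ) ≤ K + 1 by positivity)
  have h6 := mul_le_mul_of_nonneg_left h1 (show (0 : ℝ) ≤ U by positivity)
  have e2 : (5 : ℝ) / 2 * U / 2 ^ s = 5 / 4 * (U * (2 / ((2 ^ s : ℕ) : ℝ))) := by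
    push_cast
    ring
  rw [e2]
  refine le_trans (le_of_eq ?_) ((sub_le_iff_le_add.mp h2).trans ?_)
  · congr 2
    ext t
    simp [Rough]
  · linarith

lemma tau_le (m : ℕ) : m.divisors.card ≤ 2 * (m.divisors.filter fun d => d * d ≤ m).card := by
  have h1 := card_filter_add_card_filter_not (s := m.divisors) (fun d => d * d ≤ m)
  have h2 : (m.divisors.filter fun d => ¬ d * d ≤ m).card ≤
      (m.divisors.filter fun d => d * d ≤ m).card := by
    refine card_le_card_of_injOn (fun d => m / d) ?_ ?_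
    · intro d hd
      simp only [coe_filter, Nat.mem_divisors, Set.mem_ofPred_eq] at hd ⊢
      obtain ⟨⟨⟨e, rfl⟩, h0⟩, h3⟩ := hd
      have hd0 : 0 < d := Nat.pos_of_ne_zero fun h => h0 (by simp [h])
      rw [Nat.mul_div_cancel_left _ hd0]
      refine ⟨⟨dvd_mul_left _ _, h0⟩, ?_⟩
      have : e ≤ d := by
        by_contra hc
        exact h3 (Nat.mul_le_mul_left _ (by omega))
      exact Nat.mul_le_mul_right _ this
    · intro d hd d' hd' h
      simp only [coe_filter, Nat.mem_divisors, Set.mem_ofPred_eq] at hd hd' h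
      have a := Nat.div_div_self hd.1.1 hd.1.2
      have b := Nat.div_div_self hd'.1.1 hd'.1.2
      rw [← a, ← b, h]
  omega

lemma tau_sum (s i K B W : ℕ) (hK : 5 * (4 * s + 1) + 2 ≤ K) (hW : W = 2 ^ (2 ^ s * 2 ^ i))
    (hB : B ≤ W) (hB1 : 1 ≤ B) (G : ℝ) (hG : ((K : ℝ) + 1) * (2 ^ 2 ^ s + 1) ^ K ≤ G)
    (hGW : G * 2 ^ s ≤ W) :
    ∑ m ∈ (Icc (W * W) (B * (W * W))).filter (Rough (2 ^ 2 ^ s)),
      (m.divisors.card : ℝ) ≤ (W * W) * (7 * 4096 ^ (i + 1) * B / 2 ^ s) := by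
  set Rm := (Icc (W * W) (B * (W * W))).filter (Rough (2 ^ 2 ^ s))
    with hRm
  set D := (Icc 1 (B * W)).filter (Rough (2 ^ 2 ^ s)) with hD
  have hW0 : 0 < W := by rw [hW]; positivity
  have hW0' : (0 : ℝ) < W := by exact_mod_cast hW0
  have h1 : ∑ m ∈ Rm, m.divisors.card ≤ 2 * ∑ d ∈ D, (Rm.filter fun m => d ∣ m).card := by
    have hb := sum_card_bipartiteAbove_eq_sum_card_bipartiteBelow (r := fun m d : ℕ => d ∣ m)
      (s := Rm) (t := D)
    simp only [bipartiteBelow] at hb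
    rw [← hb, mul_sum]
    refine sum_le_sum fun m hm => (tau_le m).trans (Nat.mul_le_mul_left _ (card_le_card ?_))
    intro d hd
    simp only [hRm, mem_filter, mem_Icc] at hm
    simp only [mem_filter, Nat.mem_divisors] at hd
    simp only [bipartiteAbove, hD, mem_filter, mem_Icc]
    refine ⟨⟨⟨Nat.pos_of_dvd_of_pos hd.1.1 (Nat.pos_of_ne_zero hd.1.2), ?_⟩,
      fun p hp hpd => hm.2 p hp (hpd.trans hd.1.1)⟩, hd.1.1⟩
    by_contra hc
    have a : B * W * (B * W) < d * d := Nat.mul_self_lt_mul_self (by omega)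
    have b : B * (W * W) ≤ B * W * (B * W) := by
      have : B * W * (B * W) = B * (B * (W * W)) := by ring
      rw [this]
      exact Nat.le_mul_of_pos_left _ hB1
    omega
  have h2 : ∀ d ∈ D, ((Rm.filter fun m => d ∣ m).card : ℝ) ≤
      (W * W) * (7 / 2 * B / 2 ^ s) * (1 / d) := by
    intro d hd
    simp only [hD, mem_filter, mem_Icc] at hd
    have hd0 : 0 < d := hd.1.1
    have hd0' : (0 : ℝ) < d := by exact_mod_cast hd0
    have a1 : (Rm.filter fun m => d ∣ m).card ≤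
        ((Ico 1 (1 + B * (W * W) / d)).filter (Rough (2 ^ 2 ^ s))).card := by
      refine card_le_card_of_injOn (fun m => m / d) ?_ ?_
      · intro m hm
        simp only [hRm, coe_filter, mem_filter, mem_Icc, Set.mem_ofPred_eq, mem_Ico] at hm ⊢
        obtain ⟨⟨⟨b1, b2⟩, b3⟩, ⟨e, rfl⟩⟩ := hm
        have b4 := Nat.div_le_div_right (c := d) b2
        rw [Nat.mul_div_cancel_left _ hd0] at b4 ⊢
        refine ⟨⟨?_, by omega⟩, fun p hp hpe => b3 p hp (hpe.trans (dvd_mul_left _ _))⟩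
        rcases Nat.eq_zero_or_pos e with rfl | he
        · have := Nat.mul_pos hW0 hW0
          omega
        · exact he
      · intro m hm m' hm' h
        simp only [coe_filter, Set.mem_ofPred_eq] at hm hm' h
        rw [← Nat.mul_div_cancel' hm.2, ← Nat.mul_div_cancel' hm'.2, h]
    have a2 := rough_count s K hK (B * (W * W) / d)
    have a3 : ((B * (W * W) / d : ℕ) : ℝ) ≤ B * (W * W) / d := by
      have := Nat.cast_div_le (α := ℝ) (m := B * (W * W)) (n := d)
      push_cast at this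
      exact this
    have a4 : (d : ℝ) ≤ B * W := by exact_mod_cast hd.1.2
    have a5 : G ≤ (W * W) * (B / 2 ^ s) * (1 / d) := by
      have hG0 : 0 ≤ G := le_trans (by positivity) hG
      have e : ((W : ℝ) * W) * (B / 2 ^ s) * (1 / d) = (W * (B * W)) / (2 ^ s * d) := by
        field_simp
      rw [e, le_div_iff₀ (by positivity), ← mul_assoc]
      exact mul_le_mul hGW a4 hd0'.le hW0'.le
    have a6 : (5 : ℝ) / 2 * ((B * (W * W) / d : ℕ) : ℝ) / 2 ^ s ≤
        (W * W) * (5 / 2 * B / 2 ^ s) * (1 / d) := by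
      have e : ((W : ℝ) * W) * (5 / 2 * B / 2 ^ s) * (1 / d) = 5 / 2 * (B * (W * W) / d) / 2 ^ s := by
        ring
      rw [e]
      gcongr
    have a7 : ((Rm.filter fun m => d ∣ m).card : ℝ) ≤ _ := (Nat.cast_le.mpr a1).trans a2
    have e : ((W : ℝ) * W) * (7 / 2 * B / 2 ^ s) * (1 / d) =
        (W * W) * (5 / 2 * B / 2 ^ s) * (1 / d) + (W * W) * (B / 2 ^ s) * (1 / d) := by ring
    rw [e]
    linarith
  have h3 : ∑ d ∈ D, (1 : ℝ) / d ≤ 4096 ^ (i + 1) := by
    refine outer_le (2 ^ s) Nat.one_le_two_pow (i + 1) D fun d hd => ?_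
    simp only [hD, mem_filter, mem_Icc] at hd
    refine ⟨by omega, hd.1.2.trans ?_, fun p hp hpd => ?_⟩
    · have e : 2 ^ (2 ^ s * 2 ^ (i + 1)) = W * W := by
        rw [hW, ← pow_add]
        ring
      rw [e]
      exact Nat.mul_le_mul_right _ hB
    · by_contra hc
      exact hd.2 p (mem_primesIn.mpr ⟨hp.pos, by omega, hp⟩) hpd
  have h4 : ∑ m ∈ Rm, (m.divisors.card : ℝ) ≤ 2 * ∑ d ∈ D, ((Rm.filter fun m => d ∣ m).card : ℝ) := by
    exact_mod_cast h1
  refine h4.trans ?_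
  have h5 := sum_le_sum h2
  rw [← mul_sum] at h5
  have h6 := mul_le_mul_of_nonneg_left h3
    (show (0 : ℝ) ≤ (W * W) * (7 / 2 * B / 2 ^ s) by positivity)
  have e : ((W : ℝ) * W) * (7 * 4096 ^ (i + 1) * B / 2 ^ s) =
      2 * ((W * W) * (7 / 2 * B / 2 ^ s) * 4096 ^ (i + 1)) := by ring
  rw [e]
  linarith

end Pool.Agent.H.MP_58cc54_co
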