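import Mathlib

set_option autoImplicit false

namespace Pool.Agent.H.MP_58cc54_co

open Finset

variable {n : ℕ}

def TriFree (A : Finset (Sym2 (Fin n))) : Prop :=
  ∀ u v w : Fin n, u ≠ v → v ≠ w → u ≠ w → s(u, v) ∈ A → s(v, w) ∈ A → s(u, w) ∈ A → False

def Cherry (A : Finset (Sym2 (Fin n))) (W : Finset (Fin n)) : Prop :=
  ∀ u v w : Fin n, u ≠ v → s(u, w) ∈ A → s(v, w) ∈ A → u ∈ W ∧ v ∈ W

lemma triFree_insert (A : Finset (Sym2 (Fin n))) (x y : Fin n) (h : TriFree A)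
    (hn : ∀ w, s(x, w) ∈ A → s(y, w) ∈ A → False) : TriFree (insert s(x, y) A) := by
  have hn' : ∀ a b w : Fin n, s(a, b) = s(x, y) → s(a, w) ∈ A → s(b, w) ∈ A → False := by
    intro a b w hab h1 h2
    rcases Sym2.eq_iff.mp hab with ⟨rfl, rfl⟩ | ⟨rfl, rfl⟩
    · exact hn w h1 h2
    · exact hn w h2 h1
  intro u v w huv hvw huw h1 h2 h3
  rcases mem_insert.mp h1 with h1 | h1 <;> rcases mem_insert.mp h2 with h2 | h2 <;>
    rcases mem_insert.mp h3 with h3 | h3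
  · rcases Sym2.eq_iff.mp (h1.trans h2.symm) with ⟨a, _⟩ | ⟨a, _⟩
    · exact huv a
    · exact huw a
  · rcases Sym2.eq_iff.mp (h1.trans h2.symm) with ⟨a, _⟩ | ⟨a, _⟩
    · exact huv a
    · exact huw a
  · rcases Sym2.eq_iff.mp (h1.trans h3.symm) with ⟨_, a⟩ | ⟨a, _⟩
    · exact hvw a
    · exact huw a
  · exact hn' u v w h1 h3 h2
  · rcases Sym2.eq_iff.mp (h2.trans h3.symm) with ⟨a, _⟩ | ⟨a, _⟩
    · exact huv a.symm
    · exact hvw a
  · exact hn' v w u h2 (Sym2.eq_swap ▸ h1) (Sym2.eq_swap ▸ h3)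
  · exact hn' u w v h3 h1 (Sym2.eq_swap ▸ h2)
  · exact h u v w huv hvw huw h1 h2 h3

lemma cherry_free (A : Finset (Sym2 (Fin n))) (W : Finset (Fin n)) (x y : Fin n) (h : Cherry A W)
    (hx : ∀ t, s(x, t) ∉ A) (hy : ∀ t, s(y, t) ∉ A) : Cherry (insert s(x, y) A) W := by
  have hn : ∀ a w v : Fin n, s(a, w) = s(x, y) → s(v, w) ∉ A := by
    intro a w v h1 h2
    rcases Sym2.eq_iff.mp h1 with ⟨_, rfl⟩ | ⟨_, rfl⟩
    · exact hy v (Sym2.eq_swap ▸ h2)
    · exact hx v (Sym2.eq_swap ▸ h2)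
  intro u v w huv h1 h2
  rcases mem_insert.mp h1 with h1 | h1 <;> rcases mem_insert.mp h2 with h2 | h2
  · exact absurd (Sym2.congr_left.mp (h1.trans h2.symm)) huv
  · exact absurd h2 (hn u w v h1)
  · exact absurd h1 (hn v w u h2)
  · exact h u v w huv h1 h2

lemma cherry_any (A : Finset (Sym2 (Fin n))) (W : Finset (Fin n)) (x y : Fin n) (h : Cherry A W) :
    ∃ W' : Finset (Fin n), W'.card ≤ W.card + 4 ∧ Cherry (insert s(x, y) A) W' := by
  have nb : ∀ w : Fin n, ∃ a : Fin n, ∀ v, s(v, w) ∈ A → v ∈ W ∨ v = a := by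
    intro w
    by_cases hw : ∃ a, s(a, w) ∈ A
    · obtain ⟨a, ha⟩ := hw
      refine ⟨a, fun v hv => ?_⟩
      by_cases hva : v = a
      · exact Or.inr hva
      · exact Or.inl (h v a w hva hv ha).1
    · exact ⟨w, fun v hv => absurd ⟨v, hv⟩ hw⟩
  obtain ⟨a, ha⟩ := nb x
  obtain ⟨b, hb⟩ := nb y
  refine ⟨W ∪ {x, y, a, b}, (card_union_le _ _).trans (Nat.add_le_add_left card_le_four _), ?_⟩
  have hn : ∀ u w v : Fin n, s(u, w) = s(x, y) → s(v, w) ∈ A →
      u ∈ W ∪ {x, y, a, b} ∧ v ∈ W ∪ {x, y, a, b} := by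
    intro u w v h1 h2
    rcases Sym2.eq_iff.mp h1 with ⟨rfl, rfl⟩ | ⟨rfl, rfl⟩
    · refine ⟨by simp, ?_⟩
      rcases hb v h2 with h3 | rfl
      · exact mem_union_left _ h3
      · simp
    · refine ⟨by simp, ?_⟩
      rcases ha v h2 with h3 | rfl
      · exact mem_union_left _ h3
      · simp
  intro u v w huv h1 h2
  rcases mem_insert.mp h1 with h1 | h1 <;> rcases mem_insert.mp h2 with h2 | h2
  · exact absurd (Sym2.congr_left.mp (h1.trans h2.symm)) huv
  · exact hn u w v h1 h2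
  · exact (hn v w u h2 h1).symm
  · exact ⟨mem_union_left _ (h u v w huv h1 h2).1, mem_union_left _ (h u v w huv h1 h2).2⟩

lemma exists_out (F : Finset (Sym2 (Fin n))) (U V : Finset (Fin n)) (h : U.card * V.card < F.card) :
    ∃ x y : Fin n, s(x, y) ∈ F ∧ ¬ (x ∈ U ∧ y ∈ V) ∧ ¬ (y ∈ U ∧ x ∈ V) := by
  have h1 : ((U ×ˢ V).image fun p => s(p.1, p.2)).card < F.card :=
    lt_of_le_of_lt (card_image_le.trans (card_product U V).le) h
  obtain ⟨e, he, he'⟩ := exists_mem_notMem_of_card_lt_card h1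
  induction e using Sym2.ind with
  | _ x y =>
    refine ⟨x, y, he, fun hxy => he' ?_, fun hxy => he' ?_⟩
    · exact mem_image.mpr ⟨(x, y), mem_product.mpr hxy, rfl⟩
    · exact mem_image.mpr ⟨(y, x), mem_product.mpr hxy, Sym2.eq_swap⟩

lemma exists_touched (A : Finset (Sym2 (Fin n))) :
    ∃ U : Finset (Fin n), U.card ≤ 2 * A.card ∧ ∀ x t, s(x, t) ∈ A → x ∈ U := by
  induction A using Finset.induction_on with
  | empty => exact ⟨∅, by simp, by simp⟩
  | insert e A he ih =>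
    obtain ⟨U, h1, h2⟩ := ih
    induction e using Sym2.ind with
    | _ a b =>
      refine ⟨U ∪ {a, b}, ?_, fun x t h => ?_⟩
      · rw [card_insert_of_notMem he]
        have := card_union_le U {a, b}
        have := card_le_two (a := a) (b := b)
        omega
      · rcases mem_insert.mp h with h | h
        · rcases Sym2.eq_iff.mp h with ⟨rfl, _⟩ | ⟨rfl, _⟩ <;> simp
        · exact mem_union_left _ (h2 x t h)

/-- Avoider's strategy in the strict triangle game -/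
lemma game (E : Finset (Sym2 (Fin n))) (hE : ∀ x y : Fin n, s(x, y) ∈ E → x ≠ y) (b j0 : ℕ)
    (S : Set (Finset (Sym2 (Fin n)) × Finset (Sym2 (Fin n))))
    (hS : ∀ p ∈ S, (E \ (p.1 ∪ p.2) = ∅ → ¬ TriFree p.1) ∧
      ∀ e ∈ E \ (p.1 ∪ p.2), ∃ T : Finset (Sym2 (Fin n)), T ⊆ E \ (insert e (p.1 ∪ p.2)) ∧
        T.card = min b (E \ (insert e (p.1 ∪ p.2))).card ∧ (insert e p.1, p.2 ∪ T) ∈ S)
    (h1 : ∀ j < j0, j * (b + 1 + 2 * n) < E.card)
    (h2 : ∀ j, j0 ≤ j → j * (b + 1) < E.card → 16 * (j - j0) ^ 2 < E.card - j * (b + 1)) :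
    ∀ (f j : ℕ) (p : Finset (Sym2 (Fin n)) × Finset (Sym2 (Fin n))) (W : Finset (Fin n)),
      E.card - j * (b + 1) ≤ f → p ∈ S → p.1.card ≤ j →
      (E \ (p.1 ∪ p.2)).card = E.card - j * (b + 1) → TriFree p.1 → Cherry p.1 W →
      W.card ≤ 4 * (j - j0) → False := by
  intro f
  induction f with
  | zero =>
    intro j p W hf hp _ hc ht _ _
    exact (hS p hp).1 (card_eq_zero.mp (by omega)) ht
  | succ f ih =>
    intro j p W hf hp hj hc ht hch hW
    by_cases h0 : E.card - j * (b + 1) = 0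
    · exact (hS p hp).1 (card_eq_zero.mp (by omega)) ht
    have step : ∀ (x y : Fin n) (W' : Finset (Fin n)), s(x, y) ∈ E \ (p.1 ∪ p.2) →
        TriFree (insert s(x, y) p.1) → Cherry (insert s(x, y) p.1) W' →
        W'.card ≤ 4 * (j + 1 - j0) → False := by
      intro x y W' he t1 t2 t3
      obtain ⟨T, hT1, hT2, hT3⟩ := (hS p hp).2 _ he
      have e1 : (E \ insert s(x, y) (p.1 ∪ p.2)).card + 1 = (E \ (p.1 ∪ p.2)).card := by
        rw [sdiff_insert, card_erase_add_one he]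
      have e2 : E \ (insert s(x, y) p.1 ∪ (p.2 ∪ T)) = (E \ insert s(x, y) (p.1 ∪ p.2)) \ T := by
        rw [sdiff_sdiff_left, sup_eq_union, insert_union, insert_union, union_assoc]
      have e3 : (j + 1) * (b + 1) = j * (b + 1) + (b + 1) := by ring
      refine ih (j + 1) _ W' (by omega) hT3 ((card_insert_le _ _).trans (by omega)) ?_ t1 t2 t3
      show (E \ (insert s(x, y) p.1 ∪ (p.2 ∪ T))).card = _
      rw [e2, card_sdiff_of_subset hT1]
      omega
    by_cases hj0 : j < j0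
    · obtain ⟨U, hU1, hU2⟩ := exists_touched p.1
      have a1 := h1 j hj0
      have a2 : U.card * (univ : Finset (Fin n)).card < (E \ (p.1 ∪ p.2)).card := by
        rw [card_univ, Fintype.card_fin, hc]
        have a3 : U.card * n ≤ 2 * j * n := Nat.mul_le_mul_right _ (by omega)
        have a4 : j * (b + 1 + 2 * n) = j * (b + 1) + 2 * j * n := by ring
        omega
      obtain ⟨x, y, he, hx, hy⟩ := exists_out _ U univ a2
      have hx' : ∀ t, s(x, t) ∉ p.1 := fun t h => hx ⟨hU2 x t h, mem_univ _⟩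
      have hy' : ∀ t, s(y, t) ∉ p.1 := fun t h => hy ⟨hU2 y t h, mem_univ _⟩
      exact step x y W he (triFree_insert _ x y ht fun w h _ => hx' w h)
        (cherry_free _ W x y hch hx' hy') (by omega)
    · have a1 := h2 j (by omega) (by omega)
      have a2 : W.card * W.card < (E \ (p.1 ∪ p.2)).card := by
        have a3 := Nat.mul_le_mul hW hW
        have a4 : 4 * (j - j0) * (4 * (j - j0)) = 16 * (j - j0) ^ 2 := by ring
        omega
      obtain ⟨x, y, he, hx, _⟩ := exists_out _ W W a2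
      have hxy : x ≠ y := hE x y (mem_sdiff.mp he).1
      obtain ⟨W', hW1, hW2⟩ := cherry_any p.1 W x y hch
      exact step x y W' he (triFree_insert _ x y ht fun w a c => hx (hch x y w hxy a c)) hW2
        (by omega)

/-- arithmetic of the endgame -/
lemma arith (n N b A : ℕ) (hN : 2 * N + n = n * n) (hb : n ^ 3 ≤ A * (b + 1) ^ 2)
    (hn : A * (16 * A ^ 2) ^ 2 < n)
    (hd : ∀ r m : ℕ, 1 ≤ r → r ≤ 16 * A ^ 2 → n ≤ 4 * m ^ 2 → m ^ 2 ≤ A * n →
      ¬ (m : ℤ) ∣ (n : ℤ) ^ 2 - n - 2 * r) :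
    ∃ j0, (∀ j < j0, j * (b + 1 + 2 * n) < N) ∧
      ∀ j, j0 ≤ j → j * (b + 1) < N → 16 * (j - j0) ^ 2 < N - j * (b + 1) := by
  obtain ⟨q, hq⟩ : ∃ q, q = b + 1 := ⟨_, rfl⟩
  rw [← hq] at hb ⊢
  have hq0 : 0 < q := by omega
  have hex : ∃ j, N ≤ j * (q + 2 * n) := ⟨N, Nat.le_mul_of_pos_right _ (by omega)⟩
  refine ⟨Nat.find hex, fun j hj => not_le.mp (Nat.find_min hex hj), fun j hj hjq => ?_⟩
  have hj0 := Nat.find_spec hex
  generalize Nat.find hex = j0 at hj hj0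
  obtain ⟨k, rfl⟩ := Nat.exists_eq_add_of_le hj
  rw [Nat.add_sub_cancel_left]
  rcases Nat.eq_zero_or_pos k with rfl | hk
  · simp only [ne_eq, OfNat.ofNat_ne_zero, not_false_eq_true, zero_pow, mul_zero]
    omega
  have hn0 : 0 < n := by omega
  have a1 : k * q < 2 * n * j0 := by nlinarith
  have a2 : k * q ^ 2 ≤ A * q ^ 2 := by
    have c1 : k * q * q ≤ 2 * n * j0 * q := Nat.mul_le_mul_right _ a1.le
    have c2 : j0 * q ≤ N := by nlinarith
    have c3 : 2 * n * (j0 * q) ≤ 2 * n * N := Nat.mul_le_mul_left _ c2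
    have c4 : n * (2 * N) ≤ n * (n * n) := Nat.mul_le_mul_left _ (by omega)
    nlinarith
  have a3 : k ≤ A := Nat.le_of_mul_le_mul_right a2 (by positivity)
  have a4 : k ^ 2 ≤ A ^ 2 := Nat.pow_le_pow_left a3 2
  have a5 : 16 * A ^ 2 < q := by
    by_contra hc
    have c1 : q ^ 2 ≤ (16 * A ^ 2) ^ 2 := Nat.pow_le_pow_left (by omega) 2
    have c2 : A * q ^ 2 ≤ A * (16 * A ^ 2) ^ 2 := Nat.mul_le_mul_left _ c1
    have c3 : n ≤ n ^ 3 := Nat.le_self_pow (by norm_num) n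
    omega
  by_contra hc
  obtain ⟨r, hr⟩ : ∃ r, N = (j0 + k) * q + r := ⟨N - (j0 + k) * q, by omega⟩
  obtain ⟨m, hm⟩ : ∃ m, m = j0 + k := ⟨_, rfl⟩
  rw [← hm] at hr hjq hc
  have r1 : 1 ≤ r := by omega
  have r2 : r ≤ 16 * A ^ 2 := by omega
  refine hd r m r1 r2 ?_ ?_ ⟨2 * q, ?_⟩
  · have c1 : q ≤ k * q := Nat.le_mul_of_pos_left _ hk
    have c2 : 2 * n * j0 + 2 * n ≤ 2 * n * m := by
      rw [← Nat.mul_succ]
      exact Nat.mul_le_mul_left _ (by omega)
    have c3 : N ≤ (m + 1) * q := by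
      have : (m + 1) * q = m * q + q := by ring
      omega
    have c4 : (m + 1) * (q + 2 * n) ≤ (m + 1) * (2 * n * m) := Nat.mul_le_mul_left _ (by omega)
    have c5 : n * (n + 3) ≤ n * (4 * m ^ 2) := by nlinarith
    have := Nat.le_of_mul_le_mul_left c5 hn0
    omega
  · have c1 : m * q ≤ n * n := by omega
    have c2 : (m * q) ^ 2 ≤ (n * n) ^ 2 := Nat.pow_le_pow_left c1 2
    have c3 : n * n ^ 3 ≤ n * (A * q ^ 2) := Nat.mul_le_mul_left _ hb
    have c4 : m ^ 2 * q ^ 2 ≤ A * n * q ^ 2 := by nlinarith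
    exact Nat.le_of_mul_le_mul_right c4 (by positivity)
  · have c1 : (2 * N + n : ℤ) = n * n := by exact_mod_cast hN
    have c2 : (N : ℤ) = m * q + r := by exact_mod_cast hr
    linear_combination 2 * c2 - c1

end Pool.Agent.H.MP_58cc54_co
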