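import Pool.Agent.H.MP_58cc54_co.Delta

set_option autoImplicit false

namespace Pool.Agent.H.MP_58cc54_co

open Finset

def Bad (C p t : ℕ) : Prop := ∃ r ∈ Icc 1 C, (p : ℤ) ∣ (t : ℤ) ^ 2 - t - 2 * (r : ℕ)

instance (C p t : ℕ) : Decidable (Bad C p t) := by unfold Bad; infer_instance

def Sift (C z t : ℕ) : Prop := ∀ p ∈ primesIn (8 * C + 1) z, ¬ Bad C p t

instance (C z t : ℕ) : Decidable (Sift C z t) := by unfold Sift; infer_instance

noncomputable def VV (C z : ℕ) : ℝ :=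
  ∏ p ∈ primesIn (8 * C + 1) z, (1 - (((range p).filter (Bad C p)).card : ℝ) / p)

noncomputable def GG (C z K : ℕ) : ℝ := (K + 1) * (z + 1) ^ K * (2 * C) ^ K

lemma per_f (m r : ℕ) : Per (fun t : ℕ => (m : ℤ) ∣ (t : ℤ) ^ 2 - t - 2 * r) m := by
  intro s t h
  have h1 : (m : ℤ) ∣ (t : ℤ) - s := Nat.modEq_iff_dvd.mp h
  refine dvd_iff_dvd_of_dvd_sub ?_
  have : (s : ℤ) ^ 2 - s - 2 * r - ((t : ℤ) ^ 2 - t - 2 * r) = ((t : ℤ) - s) * (1 - s - t) := by ring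
  rw [this]
  exact h1.mul_right _

lemma per_bad (C p : ℕ) : Per (Bad C p) p := fun s t h =>
  exists_congr fun r => and_congr Iff.rfl (per_f p r s t h)

lemma omega_le (C p : ℕ) (hp : p.Prime) (h : 8 * C + 1 < p) :
    ((range p).filter (Bad C p)).card ≤ 2 * C := by
  have h1 : (range p).filter (Bad C p) ⊆ (Icc 1 C).biUnion fun r =>
      (range p).filter fun t : ℕ => (p : ℤ) ∣ (t : ℤ) ^ 2 - t - 2 * (r : ℕ) := by
    intro t ht
    obtain ⟨h2, r, hr, h3⟩ := mem_filter.mp ht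
    exact mem_biUnion.mpr ⟨r, hr, mem_filter.mpr ⟨h2, h3⟩⟩
  refine (card_le_card h1).trans (card_biUnion_le.trans ?_)
  refine (sum_le_card_nsmul _ _ 2 fun r hr => ?_).trans (by simp [mul_comm])
  rw [mem_Icc] at hr
  refine (rho_le p r hp.pos ?_).trans ?_
  · refine (Nat.Prime.coprime_iff_not_dvd hp).mpr fun hd => ?_
    have := Nat.le_of_dvd (by omega) hd
    omega
  · rw [hp.divisors]
    exact card_le_two

lemma sum_omega (C s : ℕ) : ∑ p ∈ primesIn (8 * C + 1) (2 ^ 2 ^ s),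
    (((range p).filter (Bad C p)).card : ℝ) / p ≤ 2 * C * (4 * s + 1) := by
  calc _ ≤ ∑ p ∈ primesIn (8 * C + 1) (2 ^ 2 ^ s), 2 * C * ((1 : ℝ) / p) := by
        refine sum_le_sum fun p hp => ?_
        rw [mem_primesIn] at hp
        have h1 : (((range p).filter (Bad C p)).card : ℝ) ≤ 2 * C := by
          exact_mod_cast omega_le C p hp.2.2 hp.1
        rw [mul_one_div]
        gcongr
    _ = 2 * C * sig (8 * C + 1) (2 ^ 2 ^ s) := by rw [sig, mul_sum]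
    _ ≤ _ := by
        have := (sig_mono 0 (8 * C + 1) (2 ^ 2 ^ s) (Nat.zero_le _)).trans (sig_zero s)
        gcongr

lemma sift (C s K : ℕ) (hC : 1 ≤ C) (hK : 10 * C * (4 * s + 1) + 2 ≤ K) (φ : ℕ → Prop)
    [DecidablePred φ] (q : ℕ) (hq : 0 < q) (hφ : Per φ q)
    (hcop : ∀ p ∈ primesIn (8 * C + 1) (2 ^ 2 ^ s), Nat.Coprime q p) (x T : ℕ) :
    |(((Ico x (x + T)).filter fun t => φ t ∧ Sift C (2 ^ 2 ^ s) t).card : ℝ) -
        T * ((range q).filter φ).card / q * VV C (2 ^ 2 ^ s)| ≤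
      T * ((range q).filter φ).card / q * VV C (2 ^ 2 ^ s) / 4 +
        GG C (2 ^ 2 ^ s) K * ((range q).filter φ).card := by
  have h := sieve_count φ q hq hφ (Bad C) (primesIn (8 * C + 1) (2 ^ 2 ^ s)) (2 * C) (by omega)
    (fun p hp => ⟨(mem_primesIn.mp hp).2.2, hcop p hp, per_bad C p⟩)
    (fun p hp => by
      rw [mem_primesIn] at hp
      have := omega_le C p hp.2.2 hp.1
      exact ⟨this, by omega⟩)
    _ (sum_omega C s) K (by
      have : ((10 * C * (4 * s + 1) + 2 : ℕ) : ℝ) ≤ K := by exact_mod_cast hK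
      push_cast at this
      linarith) x T
  refine le_trans (le_of_eq ?_) (h.trans ?_)
  · congr 4
  · have h3 : ((primesIn (8 * C + 1) (2 ^ 2 ^ s)).card : ℝ) ≤ ((2 ^ 2 ^ s : ℕ) : ℝ) := by
      exact_mod_cast card_primesIn _ (2 ^ 2 ^ s)
    unfold VV GG
    push_cast at h3 ⊢
    gcongr

lemma VV_ge (C s : ℕ) : 1 ≤ VV C (2 ^ 2 ^ s) * 2 ^ (10 * C * (4 * s + 1) + 2) := by
  have h := prod_ge_exp (fun p => (((range p).filter (Bad C p)).card : ℝ) / p)
    (primesIn (8 * C + 1) (2 ^ 2 ^ s)) (fun p hp => by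
      rw [mem_primesIn] at hp
      have h1 : (((range p).filter (Bad C p)).card : ℝ) ≤ 2 * C := by
        exact_mod_cast omega_le C p hp.2.2 hp.1
      have h2 : (8 * C + 1 : ℝ) < p := by exact_mod_cast hp.1
      have h3 : (0 : ℝ) ≤ C := Nat.cast_nonneg _
      refine ⟨by positivity, ?_⟩
      rw [div_le_iff₀ (by linarith)]
      linarith) _ (sum_omega C s)
  have h3 : Real.exp 2 ≤ 8 := by
    have := Real.exp_one_lt_d9
    have e : Real.exp 2 = Real.exp 1 * Real.exp 1 := by rw [← Real.exp_add]; norm_num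
    rw [e]
    nlinarith [Real.exp_pos 1]
  have h4 : Real.exp (2 * (2 * C * (4 * s + 1))) ≤ 2 ^ (10 * C * (4 * s + 1) + 2) := by
    have e : (2 : ℝ) * (2 * C * (4 * s + 1)) = ((2 * C * (4 * s + 1) : ℕ) : ℝ) * 2 := by
      push_cast
      ring
    rw [e, Real.exp_nat_mul]
    refine (pow_le_pow_left₀ (Real.exp_pos _).le h3 _).trans ?_
    rw [show (8 : ℝ) = 2 ^ 3 by norm_num, ← pow_mul]
    refine pow_le_pow_right₀ (by norm_num) ?_
    have : 3 * (2 * C * (4 * s + 1)) = 6 * (C * (4 * s + 1)) := by ring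
    have : 10 * C * (4 * s + 1) = 10 * (C * (4 * s + 1)) := by ring
    omega
  have h5 := mul_le_mul h h4 (Real.exp_pos _).le (le_trans (Real.exp_pos _).le h)
  rw [← Real.exp_add, neg_add_cancel, Real.exp_zero] at h5
  exact h5

lemma GG_le (C h K j : ℕ) (h1 : 2 * K ≤ j) (h2 : 2 * C + 3 ≤ h) :
    GG C (2 ^ h) K * 2 ^ K ≤ 2 ^ (h * j) := by
  have a1 : K + 1 ≤ 2 ^ K := Nat.lt_two_pow_self
  have a2 : 2 ^ h + 1 ≤ 2 ^ (h + 1) := by
    have := Nat.one_le_two_pow (n := h)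
    rw [pow_succ]
    omega
  have a3 : 2 * C ≤ 2 ^ (2 * C) := Nat.lt_two_pow_self.le
  have a4 : (K + 1) * (2 ^ h + 1) ^ K * (2 * C) ^ K * 2 ^ K ≤ 2 ^ (h * j) := by
    calc (K + 1) * (2 ^ h + 1) ^ K * (2 * C) ^ K * 2 ^ K
        ≤ 2 ^ K * (2 ^ (h + 1)) ^ K * (2 ^ (2 * C)) ^ K * 2 ^ K := by gcongr
      _ = 2 ^ ((h + (2 * C + 3)) * K) := by
          rw [← pow_mul, ← pow_mul, ← pow_add, ← pow_add, ← pow_add]
          congr 1
          ring
      _ ≤ _ := by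
          refine Nat.pow_le_pow_right (by norm_num) ?_
          calc (h + (2 * C + 3)) * K ≤ (h + h) * K := by gcongr
            _ = h * (2 * K) := by ring
            _ ≤ h * j := by gcongr
  unfold GG
  exact_mod_cast a4

lemma exists_pow (a b : ℕ) : ∃ i, a * i + b ≤ 2 ^ i := by
  refine ⟨2 * (2 * a + b), ?_⟩
  have h1 : 2 * a + b + 1 ≤ 2 ^ (2 * a + b) := Nat.lt_two_pow_self
  rw [mul_comm 2 (2 * a + b), pow_mul]
  refine le_trans ?_ (Nat.pow_le_pow_left h1 2)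
  nlinarith [Nat.zero_le a, Nat.zero_le b]

lemma prime_dvd_M (C p : ℕ) (hp : p.Prime)
    (h : p ∣ (2 * C).factorial * (8 * C + 1).factorial) : p ≤ 8 * C + 1 := by
  rcases (Nat.Prime.dvd_mul hp).mp h with h | h
  · have := (hp.dvd_factorial).mp h
    omega
  · exact (hp.dvd_factorial).mp h

/-- reduction of a divisor to its rough part -/
lemma reduce (C z n r m : ℕ) (hr1 : 1 ≤ r) (hr : r ≤ C) (hm0 : 0 < m)
    (hM : (2 * C).factorial * (8 * C + 1).factorial ∣ n) (hs : Sift C z n)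
    (hm : (m : ℤ) ∣ (n : ℤ) ^ 2 - n - 2 * r) :
    ∃ m', m' ≤ m ∧ m ≤ 2 * C * m' ∧ Rough z m' ∧ (m' : ℤ) ∣ (n : ℤ) ^ 2 - n - 2 * r := by
  obtain ⟨m', hm'⟩ := Nat.gcd_dvd_left m (2 * r)
  have hg0 : 0 < Nat.gcd m (2 * r) := Nat.gcd_pos_of_pos_left _ hm0
  have hg1 : Nat.gcd m (2 * r) ≤ 2 * C :=
    (Nat.le_of_dvd (by omega) (Nat.gcd_dvd_right m (2 * r))).trans (by omega)
  have hd : m' ∣ m := Dvd.intro_left _ hm'.symm
  have hd' : (m' : ℤ) ∣ (n : ℤ) ^ 2 - n - 2 * r := (Int.natCast_dvd_natCast.mpr hd).trans hm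
  refine ⟨m', Nat.le_of_dvd hm0 hd, ?_, ?_, hd'⟩
  · calc m = Nat.gcd m (2 * r) * m' := hm'
      _ ≤ _ := Nat.mul_le_mul_right _ hg1
  · intro p hp hpm
    rw [mem_primesIn] at hp
    by_cases hw : p ≤ 8 * C + 1
    · have a1 : Nat.gcd m (2 * r) * p ∣ m := by
        conv_rhs => rw [hm']
        exact Nat.mul_dvd_mul_left _ hpm
      have a2 : Nat.gcd m (2 * r) * p ∣ n :=
        (Nat.mul_dvd_mul (Nat.dvd_factorial hg0 hg1) (Nat.dvd_factorial hp.1 hw)).trans hM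
      have a3 : ((Nat.gcd m (2 * r) * p : ℕ) : ℤ) ∣ (n : ℤ) ^ 2 - n - 2 * r :=
        (Int.natCast_dvd_natCast.mpr a1).trans hm
      have a4 : ((Nat.gcd m (2 * r) * p : ℕ) : ℤ) ∣ (n : ℤ) ^ 2 - n := by
        have := Int.natCast_dvd_natCast.mpr a2
        exact dvd_sub (dvd_pow this (by norm_num)) this
      have a5 : ((Nat.gcd m (2 * r) * p : ℕ) : ℤ) ∣ ((2 * r : ℕ) : ℤ) := by
        have := dvd_sub a4 a3
        have e : (n : ℤ) ^ 2 - n - ((n : ℤ) ^ 2 - n - 2 * r) = ((2 * r : ℕ) : ℤ) := by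
          push_cast
          ring
        rwa [e] at this
      have a6 := Nat.dvd_gcd a1 (Int.natCast_dvd_natCast.mp a5)
      have a7 := Nat.le_of_dvd hg0 a6
      have := hp.2.2.two_le
      nlinarith
    · exact hs p (mem_primesIn.mpr ⟨by omega, hp.2⟩)
        ⟨r, mem_Icc.mpr ⟨hr1, hr⟩, (Int.natCast_dvd_natCast.mpr hpm).trans hd'⟩

end Pool.Agent.H.MP_58cc54_co
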