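import Pool.Agent.H.MP_58cc54_co.NT

set_option autoImplicit false

namespace Pool.Agent.H.MP_58cc54_co

open Finset

lemma bad_one (C s K M r m x T : ℕ) (hC : 1 ≤ C) (hK : 10 * C * (4 * s + 1) + 2 ≤ K)
    (hM : M = (2 * C).factorial * (8 * C + 1).factorial) (hz : 8 * C + 1 ≤ 2 ^ 2 ^ s)
    (hr : r ≤ C) (Y : ℕ) (hY : 0 < Y) (hm : Y ≤ m) (hR : Rough (2 ^ 2 ^ s) m) :
    (((Ico x (x + T)).filter fun t : ℕ =>
        (M ∣ t ∧ (m : ℤ) ∣ (t : ℤ) ^ 2 - t - 2 * r) ∧ Sift C (2 ^ 2 ^ s) t).card : ℝ) ≤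
      (5 / 4 * (T / M * VV C (2 ^ 2 ^ s)) / Y + GG C (2 ^ 2 ^ s) K) * m.divisors.card := by
  have hM0 : 0 < M := by rw [hM]; positivity
  have hm0 : 0 < m := by omega
  have hMm : Nat.Coprime M m := by
    refine Nat.coprime_of_dvd fun p hp h1 h2 => ?_
    rw [hM] at h1
    exact hR p (mem_primesIn.mpr ⟨hp.pos, (prime_dvd_M C p hp h1).trans hz, hp⟩) h2
  have hc : Nat.Coprime m (8 * r + 1) := by
    refine Nat.coprime_of_dvd fun p hp h1 h2 => ?_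
    have := Nat.le_of_dvd (by omega) h2
    exact hR p (mem_primesIn.mpr ⟨hp.pos, by omega, hp⟩) h1
  have h := sift C s K hC hK (fun t : ℕ => M ∣ t ∧ (m : ℤ) ∣ (t : ℤ) ^ 2 - t - 2 * r) (M * m)
    (Nat.mul_pos hM0 hm0)
    (fun a b hab => and_congr (per_dvd M a b (hab.of_dvd (dvd_mul_right _ _)))
      (per_f m r a b (hab.of_dvd (dvd_mul_left _ _))))
    (fun p hp => by
      rw [mem_primesIn] at hp
      refine Nat.Coprime.symm ((Nat.Prime.coprime_iff_not_dvd hp.2.2).mpr fun hd => ?_)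
      rcases (Nat.Prime.dvd_mul hp.2.2).mp hd with hd | hd
      · rw [hM] at hd
        have := prime_dvd_M C p hp.2.2 hd
        omega
      · exact hR p (mem_primesIn.mpr ⟨hp.2.2.pos, hp.2⟩) hd) x T
  rw [crt_count _ _ M m hM0 hm0 hMm (per_dvd M) (per_f m r), card_dvd_range M hM0, one_mul] at h
  have h1 := rho_le m r hm0 hc
  set ρ := ((range m).filter fun t : ℕ => (m : ℤ) ∣ (t : ℤ) ^ 2 - t - 2 * r).card
  have h2 : (ρ : ℝ) ≤ m.divisors.card := by exact_mod_cast h1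
  have hV : 0 ≤ VV C (2 ^ 2 ^ s) := by
    by_contra hn
    have := VV_ge C s
    have h3 : VV C (2 ^ 2 ^ s) * 2 ^ (10 * C * (4 * s + 1) + 2) < 0 :=
      mul_neg_of_neg_of_pos (not_le.mp hn) (by positivity)
    linarith
  have hG : 0 ≤ GG C (2 ^ 2 ^ s) K := by unfold GG; positivity
  have h3 := (abs_le.mp h).2
  have hY' : (0 : ℝ) < Y := by exact_mod_cast hY
  have hm' : (Y : ℝ) ≤ m := by exact_mod_cast hm
  have hM' : (0 : ℝ) < M := by exact_mod_cast hM0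
  have h4 : (T : ℝ) * ρ / ((M * m : ℕ) : ℝ) * VV C (2 ^ 2 ^ s) ≤
      T / M * VV C (2 ^ 2 ^ s) / Y * m.divisors.card := by
    have e : (T : ℝ) * ρ / ((M * m : ℕ) : ℝ) * VV C (2 ^ 2 ^ s) =
        T / M * VV C (2 ^ 2 ^ s) / m * ρ := by
      push_cast
      ring
    rw [e]
    gcongr
  have h5 := mul_le_mul_of_nonneg_left h2 hG
  have e : (5 / 4 * ((T : ℝ) / M * VV C (2 ^ 2 ^ s)) / Y + GG C (2 ^ 2 ^ s) K) * m.divisors.card =
      5 / 4 * (T / M * VV C (2 ^ 2 ^ s) / Y * m.divisors.card) +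
        GG C (2 ^ 2 ^ s) K * m.divisors.card := by ring
  rw [e]
  linarith

lemma good_count (C s K M x T : ℕ) (hC : 1 ≤ C) (hK : 10 * C * (4 * s + 1) + 2 ≤ K)
    (hM : M = (2 * C).factorial * (8 * C + 1).factorial) :
    3 / 4 * ((T : ℝ) / M * VV C (2 ^ 2 ^ s)) - GG C (2 ^ 2 ^ s) K ≤
      (((Ico x (x + T)).filter fun t : ℕ => M ∣ t ∧ Sift C (2 ^ 2 ^ s) t).card : ℝ) := by
  have hM0 : 0 < M := by rw [hM]; positivity
  have h := sift C s K hC hK (fun t : ℕ => M ∣ t) M hM0 (per_dvd M)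
    (fun p hp => by
      rw [mem_primesIn] at hp
      refine Nat.Coprime.symm ((Nat.Prime.coprime_iff_not_dvd hp.2.2).mpr fun hd => ?_)
      rw [hM] at hd
      have := prime_dvd_M C p hp.2.2 hd
      omega) x T
  rw [card_dvd_range M hM0, Nat.cast_one, mul_one, mul_one] at h
  have := (abs_le.mp h).1
  linarith

theorem no_divisor (A C n0 : ℕ) (hA : 1 ≤ A) (hC : 1 ≤ C) :
    ∃ n, n0 ≤ n ∧ ∀ r m : ℕ, 1 ≤ r → r ≤ C → n ≤ 4 * m ^ 2 → m ^ 2 ≤ A * n →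
      ¬ (m : ℤ) ∣ (n : ℤ) ^ 2 - n - 2 * r := by
  obtain ⟨M, hM⟩ : ∃ M, M = (2 * C).factorial * (8 * C + 1).factorial := ⟨_, rfl⟩
  obtain ⟨B, hB⟩ : ∃ B, B = 8 * A * C := ⟨_, rfl⟩
  obtain ⟨i, hi⟩ := exists_pow (1040 * C) (20 * C + 4 + 35 * 4096 * B * C + 4 * M + n0 + B)
  obtain ⟨s, hs⟩ : ∃ s, s = 13 * i := ⟨_, rfl⟩
  obtain ⟨K, hK⟩ : ∃ K, K = 10 * C * (4 * s + 1) + 2 := ⟨_, rfl⟩
  obtain ⟨W, hW⟩ : ∃ W, W = 2 ^ (2 ^ s * 2 ^ i) := ⟨_, rfl⟩
  have hM0 : 0 < M := by rw [hM]; positivity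
  have hB1 : 1 ≤ B := by rw [hB]; exact Nat.mul_pos (by omega) hC
  have h2K : 2 * K ≤ 2 ^ i := by
    have : 2 * K = 1040 * C * i + (20 * C + 4) := by rw [hK, hs]; ring
    omega
  have his : 2 ^ i ≤ 2 ^ s := Nat.pow_le_pow_right (by norm_num) (by omega)
  have hz : 2 ^ s < 2 ^ 2 ^ s := Nat.lt_two_pow_self
  have hiW : 2 ^ i < W := by
    rw [hW]
    exact lt_of_le_of_lt (Nat.le_mul_of_pos_left _ (by positivity)) Nat.lt_two_pow_self
  have hGW : GG C (2 ^ 2 ^ s) K * 2 ^ K ≤ W := by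
    have := GG_le C (2 ^ s) K (2 ^ i) h2K (by omega)
    rw [hW]
    exact_mod_cast this
  have hG0 : 0 ≤ GG C (2 ^ 2 ^ s) K := by unfold GG; positivity
  have hsK : s ≤ K := by
    have : s ≤ C * s := Nat.le_mul_of_pos_left _ hC
    have e : K = 40 * (C * s) + 10 * C + 2 := by rw [hK]; ring
    omega
  have hτ := tau_sum s i K B W (by
      have : 4 * s + 1 ≤ C * (4 * s + 1) := Nat.le_mul_of_pos_left _ hC
      have e : K = 10 * (C * (4 * s + 1)) + 2 := by rw [hK]; ring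
      omega) hW (by omega) hB1 (GG C (2 ^ 2 ^ s) K) (by
      unfold GG
      have a : (1 : ℝ) ≤ (2 * C) ^ K := one_le_pow₀ (by
        have : (1 : ℝ) ≤ C := by exact_mod_cast hC
        linarith)
      push_cast
      exact le_mul_of_one_le_right (by positivity) a)
    (le_trans (mul_le_mul_of_nonneg_left (pow_le_pow_right₀ (by norm_num) hsK) hG0) hGW)
  have hV := VV_ge C s
  rw [← hK] at hV
  obtain ⟨Y, hY⟩ : ∃ Y, Y = W * W := ⟨_, rfl⟩
  obtain ⟨x, hx⟩ : ∃ x, x = (4 * C * Y) ^ 2 := ⟨_, rfl⟩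
  have hW0 : 0 < W := by omega
  have hY0 : 0 < Y := by rw [hY]; positivity
  have hYx : Y * Y ≤ x := by
    rw [hx, pow_two]
    have : Y ≤ 4 * C * Y := Nat.le_mul_of_pos_left _ (by omega)
    exact Nat.mul_le_mul this this
  rw [← hY] at hτ
  set Rm := (Icc Y (B * Y)).filter (Rough (2 ^ 2 ^ s)) with hRm
  by_contra hcon
  push Not at hcon
  have hsub : ((Ico x (x + x)).filter fun t : ℕ => M ∣ t ∧ Sift C (2 ^ 2 ^ s) t) ⊆
      (Icc 1 C ×ˢ Rm).biUnion fun rm => (Ico x (x + x)).filter fun t : ℕ =>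
        (M ∣ t ∧ (rm.2 : ℤ) ∣ (t : ℤ) ^ 2 - t - 2 * (rm.1 : ℕ)) ∧ Sift C (2 ^ 2 ^ s) t := by
    intro n hn
    obtain ⟨hn1, hn2, hn3⟩ := mem_filter.mp hn
    have hn4 := mem_Ico.mp hn1
    have hn0 : n0 ≤ n := by
      have a : W ≤ Y := by rw [hY]; exact Nat.le_mul_self W
      have b : Y ≤ Y * Y := Nat.le_mul_self Y
      omega
    obtain ⟨r, m, r1, r2, m1, m2, hd⟩ := hcon n hn0
    have m3 : 2 * C * Y ≤ m := by
      by_contra hc
      have a : m ^ 2 < (2 * C * Y) ^ 2 := Nat.pow_lt_pow_left (by omega) (by norm_num)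
      have b : x = 4 * (2 * C * Y) ^ 2 := by rw [hx]; ring
      omega
    have m0 : 0 < m := lt_of_lt_of_le (by positivity) m3
    have m4 : m ≤ B * Y := by
      by_contra hc
      have a : (B * Y) ^ 2 < m ^ 2 := Nat.pow_lt_pow_left (by omega) (by norm_num)
      have b : (B * Y) ^ 2 = 2 * A * (A * (x + x)) := by rw [hB, hx]; ring
      have c : A * n ≤ A * (x + x) := Nat.mul_le_mul_left _ hn4.2.le
      have d : A * (x + x) ≤ 2 * A * (A * (x + x)) := Nat.le_mul_of_pos_left _ (by omega)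
      omega
    obtain ⟨m', a1, a2, a3, a4⟩ := reduce C (2 ^ 2 ^ s) n r m r1 r2 m0 (hM ▸ hn2) hn3 hd
    refine mem_biUnion.mpr ⟨(r, m'), mem_product.mpr ⟨mem_Icc.mpr ⟨r1, r2⟩, ?_⟩,
      mem_filter.mpr ⟨hn1, ⟨hn2, a4⟩, hn3⟩⟩
    refine mem_filter.mpr ⟨mem_Icc.mpr ⟨?_, a1.trans m4⟩, a3⟩
    exact Nat.le_of_mul_le_mul_left (m3.trans a2) (by omega)
  have h1 := good_count C s K M x x hC hK.ge hM
  have h2 := (card_le_card hsub).trans card_biUnion_le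
  set Z := (x : ℝ) / M * VV C (2 ^ 2 ^ s) with hZ
  set G := GG C (2 ^ 2 ^ s) K with hG
  have h3 : (((Ico x (x + x)).filter fun t : ℕ => M ∣ t ∧ Sift C (2 ^ 2 ^ s) t).card : ℝ) ≤
      ∑ rm ∈ Icc 1 C ×ˢ Rm, (5 / 4 * Z / Y + G) * rm.2.divisors.card := by
    refine le_trans (Nat.cast_le.mpr h2) ?_
    rw [Nat.cast_sum]
    refine sum_le_sum fun rm hrm => ?_
    obtain ⟨b1, b2⟩ := mem_product.mp hrm
    obtain ⟨b3, b4⟩ := mem_filter.mp b2
    exact bad_one C s K M rm.1 rm.2 x x hC hK.ge hM (by omega) (mem_Icc.mp b1).2 Y hY0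
      (mem_Icc.mp b3).1 b4
  have hV0 : 0 < VV C (2 ^ 2 ^ s) := by
    by_contra hn
    have h3 : VV C (2 ^ 2 ^ s) * 2 ^ K ≤ 0 :=
      mul_nonpos_of_nonpos_of_nonneg (not_lt.mp hn) (by positivity)
    linarith
  have hM' : (0 : ℝ) < M := by exact_mod_cast hM0
  have hY' : (0 : ℝ) < Y := by exact_mod_cast hY0
  have hW' : (0 : ℝ) < W := by exact_mod_cast hW0
  have hZ0 : 0 ≤ Z := by positivity
  have hYW : (Y : ℝ) = W * W := by exact_mod_cast hY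
  have h4 : ∑ rm ∈ Icc 1 C ×ˢ Rm, (5 / 4 * Z / Y + G) * (rm.2.divisors.card : ℝ) =
      (5 / 4 * Z / Y + G) * (C * ∑ m ∈ Rm, (m.divisors.card : ℝ)) := by
    rw [← mul_sum, sum_product]
    simp
  have h5 : (C : ℝ) * ∑ m ∈ Rm, (m.divisors.card : ℝ) ≤ Y / 5 := by
    refine (mul_le_mul_of_nonneg_left hτ (Nat.cast_nonneg _)).trans ?_
    rw [← hYW]
    have a : (35 * 4096 * B * C : ℝ) ≤ 2 ^ i := by
      have : 35 * 4096 * B * C ≤ 2 ^ i := by omega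
      exact_mod_cast this
    have b : (2 : ℝ) ^ s = 4096 ^ i * 2 ^ i := by
      rw [hs, pow_mul, ← mul_pow]
      norm_num
    have c : (C : ℝ) * (Y * (7 * 4096 ^ (i + 1) * B / 2 ^ s)) =
        Y / 5 * ((35 * 4096 * B * C) / 2 ^ i) := by
      rw [b]
      field_simp
      ring
    rw [c]
    exact mul_le_of_le_one_right (by positivity) ((div_le_one (by positivity)).mpr a)
  have h6 : (5 / 4 * Z / Y + G) * (C * ∑ m ∈ Rm, (m.divisors.card : ℝ)) ≤ Z / 4 + G * Y / 5 := by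
    refine (mul_le_mul_of_nonneg_left h5 (by positivity)).trans (le_of_eq ?_)
    field_simp
  have h7 : G ≤ W * VV C (2 ^ 2 ^ s) := by
    calc G ≤ G * (VV C (2 ^ 2 ^ s) * 2 ^ K) := le_mul_of_one_le_right hG0 hV
      _ = G * 2 ^ K * VV C (2 ^ 2 ^ s) := by ring
      _ ≤ _ := mul_le_mul_of_nonneg_right hGW hV0.le
  have h8 : 4 * (Y * (W * VV C (2 ^ 2 ^ s))) < Z := by
    have a : (4 * M : ℝ) < W := by
      have : 4 * M < W := by omega
      exact_mod_cast this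
    have b : (Y * Y : ℝ) ≤ x := by exact_mod_cast hYx
    rw [hZ, div_mul_eq_mul_div, lt_div_iff₀ hM']
    calc 4 * ((Y : ℝ) * (W * VV C (2 ^ 2 ^ s))) * M = (4 * M) * (Y * W * VV C (2 ^ 2 ^ s)) := by ring
      _ < W * (Y * W * VV C (2 ^ 2 ^ s)) := mul_lt_mul_of_pos_right a (by positivity)
      _ = Y * (W * W) * VV C (2 ^ 2 ^ s) := by ring
      _ = Y * Y * VV C (2 ^ 2 ^ s) := by rw [← hYW]
      _ ≤ _ := mul_le_mul_of_nonneg_right b hV0.le
  have h9 : (1 : ℝ) ≤ Y := by exact_mod_cast hY0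
  have h10 : G ≤ G * Y := le_mul_of_one_le_right hG0 h9
  have h11 : G * Y ≤ Y * (W * VV C (2 ^ 2 ^ s)) := by
    rw [mul_comm]
    exact mul_le_mul_of_nonneg_left h7 hY'.le
  rw [h4] at h3
  have h12 : 0 ≤ G * Y := by positivity
  linarith

end Pool.Agent.H.MP_58cc54_co
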