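import Pool.Agent.H.MP_58cc54_co.Bonf

set_option autoImplicit false

namespace Pool.Agent.H.MP_58cc54_co

open Finset

/-- `φ` depends only on the residue modulo `q` -/
def Per (φ : ℕ → Prop) (q : ℕ) : Prop := ∀ s t, s ≡ t [MOD q] → (φ s ↔ φ t)

lemma Per.periodic {φ : ℕ → Prop} {q : ℕ} (h : Per φ q) : Function.Periodic φ q := by
  intro t
  exact propext (h _ _ (by simp [Nat.ModEq]))

lemma Per.of_dvd {φ : ℕ → Prop} {q q' : ℕ} (h : Per φ q) (hd : q ∣ q') : Per φ q' :=
  fun s t hst => h s t (hst.of_dvd hd)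

lemma count_mul (φ : ℕ → Prop) [DecidablePred φ] (q : ℕ) (h : Per φ q) (x k : ℕ) :
    ((Ico x (x + q * k)).filter φ).card = k * ((range q).filter φ).card := by
  induction k with
  | zero => simp
  | succ k ih =>
    have e : Ico x (x + q * (k + 1)) = Ico x (x + q * k) ∪ Ico (x + q * k) (x + q * k + q) := by
      rw [Ico_union_Ico_eq_Ico (by omega) (by omega)]
      congr 1
      ring
    rw [e, filter_union, card_union_of_disjoint, ih,
      Nat.filter_Ico_card_eq_of_periodic _ _ _ h.periodic, Nat.count_eq_card_filter_range]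
    · ring
    · exact disjoint_filter_filter (Ico_disjoint_Ico_consecutive _ _ _)

lemma per_count (φ : ℕ → Prop) [DecidablePred φ] (q : ℕ) (hq : 0 < q) (h : Per φ q) (x T : ℕ) :
    |(((Ico x (x + T)).filter φ).card : ℝ) - T * ((range q).filter φ).card / q| ≤
      ((range q).filter φ).card := by
  set ν := ((range q).filter φ).card with hν
  have h1 : (T / q) * ν ≤ ((Ico x (x + T)).filter φ).card := by
    rw [← count_mul φ q h x]
    refine card_le_card (filter_subset_filter _ (Ico_subset_Ico_right ?_))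
    have := Nat.mul_div_le T q
    omega
  have h2 : ((Ico x (x + T)).filter φ).card ≤ (T / q + 1) * ν := by
    rw [← count_mul φ q h x]
    refine card_le_card (filter_subset_filter _ (Ico_subset_Ico_right ?_))
    have := Nat.lt_mul_div_succ T hq
    omega
  have hq' : (0 : ℝ) < q := by exact_mod_cast hq
  have h3 : ((T / q : ℕ) : ℝ) ≤ T / q := Nat.cast_div_le
  have h4 : (T : ℝ) / q ≤ (T / q : ℕ) + 1 := by
    rw [div_le_iff₀ hq']
    have := Nat.lt_mul_div_succ T hq
    have h5 : (T : ℝ) ≤ (q * (T / q + 1) : ℕ) := by exact_mod_cast this.le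
    push_cast at h5
    linarith
  have h1' : ((T / q : ℕ) : ℝ) * ν ≤ ((Ico x (x + T)).filter φ).card := by exact_mod_cast h1
  have h2' : (((Ico x (x + T)).filter φ).card : ℝ) ≤ (((T / q : ℕ) : ℝ) + 1) * ν := by
    exact_mod_cast h2
  have hν0 : (0 : ℝ) ≤ ν := Nat.cast_nonneg _
  have e : (T : ℝ) * ν / q = T / q * ν := by ring
  rw [e, abs_le]
  constructor <;> nlinarith [mul_le_mul_of_nonneg_right h3 hν0, mul_le_mul_of_nonneg_right h4 hν0]

lemma crt_count (φ ψ : ℕ → Prop) [DecidablePred φ] [DecidablePred ψ] (a b : ℕ) (ha : 0 < a)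
    (hb : 0 < b) (hab : Nat.Coprime a b) (h1 : Per φ a) (h2 : Per ψ b) :
    ((range (a * b)).filter fun t => φ t ∧ ψ t).card =
      ((range a).filter φ).card * ((range b).filter ψ).card := by
  rw [← card_product]
  refine card_bij (fun t _ => (t % a, t % b)) ?_ ?_ ?_
  · intro t ht
    simp only [mem_filter, mem_range, mem_product] at ht ⊢
    exact ⟨⟨Nat.mod_lt _ ha, (h1 _ _ (Nat.mod_modEq t a)).mpr ht.2.1⟩,
      ⟨Nat.mod_lt _ hb, (h2 _ _ (Nat.mod_modEq t b)).mpr ht.2.2⟩⟩
  · intro s hs t ht h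
    simp only [mem_filter, mem_range, Prod.mk.injEq] at hs ht h
    have : s ≡ t [MOD a * b] := (Nat.modEq_and_modEq_iff_modEq_mul hab).mp ⟨h.1, h.2⟩
    exact Nat.ModEq.eq_of_lt_of_lt this hs.1 ht.1
  · rintro ⟨u, v⟩ huv
    simp only [mem_filter, mem_range, mem_product] at huv
    obtain ⟨k, hk1, hk2⟩ := Nat.chineseRemainder hab u v
    have hm : k % (a * b) ≡ k [MOD a * b] := Nat.mod_modEq _ _
    have ha' : k % (a * b) ≡ u [MOD a] := (hm.of_dvd (dvd_mul_right _ _)).trans hk1
    have hb' : k % (a * b) ≡ v [MOD b] := (hm.of_dvd (dvd_mul_left _ _)).trans hk2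
    refine ⟨k % (a * b), ?_, ?_⟩
    · simp only [mem_filter, mem_range]
      exact ⟨Nat.mod_lt _ (Nat.mul_pos ha hb), (h1 _ _ ha').mpr huv.1.2, (h2 _ _ hb').mpr huv.2.2⟩
    · have e1 : k % (a * b) % a = u := by
        have := ha'
        unfold Nat.ModEq at this
        rw [this, Nat.mod_eq_of_lt huv.1.1]
      have e2 : k % (a * b) % b = v := by
        have := hb'
        unfold Nat.ModEq at this
        rw [this, Nat.mod_eq_of_lt huv.2.1]
      simp only [e1, e2]

lemma crt_prod (φ : ℕ → Prop) [DecidablePred φ] (q : ℕ) (hq : 0 < q) (h : Per φ q)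
    (B : ℕ → ℕ → Prop) [∀ p t, Decidable (B p t)] (S : Finset ℕ)
    (hS : ∀ p ∈ S, p.Prime ∧ Nat.Coprime q p ∧ Per (B p) p) :
    Per (fun t => φ t ∧ ∀ p ∈ S, B p t) (q * ∏ p ∈ S, p) ∧
    ((range (q * ∏ p ∈ S, p)).filter fun t => φ t ∧ ∀ p ∈ S, B p t).card =
      ((range q).filter φ).card * ∏ p ∈ S, ((range p).filter (B p)).card := by
  constructor
  · intro s t hst
    refine and_congr (h s t (hst.of_dvd (dvd_mul_right _ _))) (forall₂_congr fun p hp => ?_)
    exact (hS p hp).2.2 s t (hst.of_dvd (dvd_mul_of_dvd_right (dvd_prod_of_mem _ hp) _))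
  · induction S using Finset.induction_on with
    | empty => simp
    | insert r S hr ih =>
      have hS' : ∀ p ∈ S, p.Prime ∧ Nat.Coprime q p ∧ Per (B p) p :=
        fun p hp => hS p (mem_insert_of_mem hp)
      have ih := ih hS'
      have hr' := hS r (mem_insert_self _ _)
      have hper : Per (fun t => φ t ∧ ∀ p ∈ S, B p t) (q * ∏ p ∈ S, p) := by
        intro s t hst
        refine and_congr (h s t (hst.of_dvd (dvd_mul_right _ _))) (forall₂_congr fun p hp => ?_)
        exact (hS' p hp).2.2 s t (hst.of_dvd (dvd_mul_of_dvd_right (dvd_prod_of_mem _ hp) _))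
      have hpos : 0 < q * ∏ p ∈ S, p :=
        Nat.mul_pos hq (prod_pos fun p hp => (hS' p hp).1.pos)
      have hcop : Nat.Coprime (q * ∏ p ∈ S, p) r := by
        refine Nat.Coprime.mul_left hr'.2.1 (Nat.Coprime.prod_left fun p hp => ?_)
        refine (Nat.coprime_primes (hS' p hp).1 hr'.1).mpr ?_
        rintro rfl
        exact hr hp
      have := crt_count _ (B r) _ r hpos hr'.1.pos hcop hper hr'.2.2
      rw [prod_insert hr, prod_insert hr]
      have e1 : q * (r * ∏ p ∈ S, p) = q * (∏ p ∈ S, p) * r := by ring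
      rw [e1]
      have e2 : ((range (q * (∏ p ∈ S, p) * r)).filter fun t => φ t ∧ ∀ p ∈ insert r S, B p t) =
          ((range (q * (∏ p ∈ S, p) * r)).filter fun t => (φ t ∧ ∀ p ∈ S, B p t) ∧ B r t) := by
        refine filter_congr fun t _ => ?_
        simp only [forall_mem_insert]
        constructor
        · rintro ⟨a, b, c⟩
          exact ⟨⟨a, c⟩, b⟩
        · rintro ⟨⟨a, c⟩, b⟩
          exact ⟨a, b, c⟩
      rw [e2, this, ih]
      ring

/-- the pure sieve for periodic conditions -/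
lemma sieve_count (φ : ℕ → Prop) [DecidablePred φ] (q : ℕ) (hq : 0 < q) (h : Per φ q)
    (B : ℕ → ℕ → Prop) [∀ p t, Decidable (B p t)] (P : Finset ℕ) (R : ℕ) (hR : 1 ≤ R)
    (hP : ∀ p ∈ P, p.Prime ∧ Nat.Coprime q p ∧ Per (B p) p)
    (hω : ∀ p ∈ P, ((range p).filter (B p)).card ≤ R ∧ 2 * ((range p).filter (B p)).card ≤ p)
    (l : ℝ) (hl : ∑ p ∈ P, (((range p).filter (B p)).card : ℝ) / p ≤ l) (K : ℕ)
    (hK : 5 * l + 2 ≤ K) (x T : ℕ) :
    |(((Ico x (x + T)).filter fun t => φ t ∧ ∀ p ∈ P, ¬ B p t).card : ℝ) -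
        T * ((range q).filter φ).card / q *
          ∏ p ∈ P, (1 - (((range p).filter (B p)).card : ℝ) / p)| ≤
      T * ((range q).filter φ).card / q *
          (∏ p ∈ P, (1 - (((range p).filter (B p)).card : ℝ) / p)) / 4 +
        (K + 1) * (P.card + 1) ^ K * R ^ K * ((range q).filter φ).card := by
  set g : ℕ → ℝ := fun p => (((range p).filter (B p)).card : ℝ) / p with hg
  set ν := ((range q).filter φ).card with hν
  have hg2 : ∀ p ∈ P, 0 ≤ g p ∧ g p ≤ 1 / 2 := by
    intro p hp
    have hp0 : (0 : ℝ) < p := by exact_mod_cast (hP p hp).1.pos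
    refine ⟨by positivity, ?_⟩
    simp only [hg]
    rw [div_le_iff₀ hp0]
    have : (2 : ℝ) * ((range p).filter (B p)).card ≤ p := by exact_mod_cast (hω p hp).2
    linarith
  have hX : (0 : ℝ) ≤ T * ν / q := by positivity
  have key := sieve_abs ((Ico x (x + T)).filter φ) P B g
    (fun p hp => ⟨(hg2 p hp).1, by linarith [(hg2 p hp).2]⟩) (T * ν / q) (R ^ K * ν) hX
    (by positivity) K ?_
  · rw [filter_filter] at key
    have h8 := es_small g P hg2 l hl K hK
    have h9 := mul_le_mul_of_nonneg_left h8 hX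
    refine key.trans ?_
    have e : ((K : ℝ) + 1) * (P.card + 1) ^ K * (R ^ K * ν) =
        (K + 1) * (P.card + 1) ^ K * R ^ K * ν := by ring
    rw [e]
    linarith
  · intro S hS hSK
    rw [filter_filter]
    obtain ⟨a1, a2⟩ := crt_prod φ q hq h B S fun p hp => hP p (hS hp)
    have hpos : 0 < q * ∏ p ∈ S, p :=
      Nat.mul_pos hq (prod_pos fun p hp => (hP p (hS hp)).1.pos)
    have a3 := per_count _ _ hpos a1 x T
    rw [a2] at a3
    have e : (T : ℝ) * ν / q * ∏ p ∈ S, g p =
        T * ((ν * ∏ p ∈ S, ((range p).filter (B p)).card : ℕ) : ℝ) / ((q * ∏ p ∈ S, p : ℕ) : ℝ) := by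
      simp only [hg]
      rw [prod_div_distrib, Nat.cast_mul, Nat.cast_mul, Nat.cast_prod, Nat.cast_prod,
        div_mul_div_comm, mul_assoc]
    rw [e]
    refine a3.trans ?_
    have a4 : ∏ p ∈ S, ((range p).filter (B p)).card ≤ R ^ K :=
      (prod_le_pow_card S _ R fun p hp => (hω p (hS hp)).1).trans (Nat.pow_le_pow_right hR hSK)
    have a5 : ν * ∏ p ∈ S, ((range p).filter (B p)).card ≤ R ^ K * ν := by
      rw [mul_comm]
      exact Nat.mul_le_mul_right _ a4
    exact_mod_cast a5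

end Pool.Agent.H.MP_58cc54_co
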