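import Pool.Agent.H.MP_58cc54_co.Per

set_option autoImplicit false

namespace Pool.Agent.H.MP_58cc54_co

open Finset

def primesIn (a b : ℕ) : Finset ℕ := (Ioc a b).filter Nat.Prime

lemma mem_primesIn {a b p : ℕ} : p ∈ primesIn a b ↔ a < p ∧ p ≤ b ∧ p.Prime := by
  simp [primesIn, and_assoc]

noncomputable def sig (a b : ℕ) : ℝ := ∑ p ∈ primesIn a b, (1 : ℝ) / p

lemma sig_add (a b c : ℕ) (h1 : a ≤ b) (h2 : b ≤ c) : sig a c = sig a b + sig b c := by
  unfold sig primesIn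
  rw [← Ioc_union_Ioc_eq_Ioc h1 h2, filter_union, sum_union]
  exact disjoint_filter_filter (Ioc_disjoint_Ioc_of_le le_rfl)

lemma sig_mono (a a' b : ℕ) (h : a ≤ a') : sig a' b ≤ sig a b := by
  unfold sig
  refine sum_le_sum_of_subset_of_nonneg (fun p hp => ?_) fun p _ _ => by positivity
  rw [mem_primesIn] at hp ⊢
  exact ⟨by omega, hp.2⟩

lemma sig_block (j : ℕ) (hj : 1 ≤ j) : sig (2 ^ j) (2 ^ (j + 1)) ≤ 4 / j := by
  have h1 : (2 ^ j) ^ (primesIn (2 ^ j) (2 ^ (j + 1))).card ≤ 4 ^ (2 ^ (j + 1)) := by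
    calc (2 ^ j) ^ (primesIn (2 ^ j) (2 ^ (j + 1))).card
        ≤ ∏ p ∈ primesIn (2 ^ j) (2 ^ (j + 1)), p :=
          pow_card_le_prod _ _ _ fun p hp => (mem_primesIn.mp hp).1.le
      _ ≤ primorial (2 ^ (j + 1)) := by
          unfold primorial
          refine prod_le_prod_of_subset_of_one_le' (fun p hp => ?_) fun p hp _ => ?_
          · rw [mem_primesIn] at hp
            simp only [mem_filter, mem_range]
            exact ⟨by omega, hp.2.2⟩
          · exact (mem_filter.mp hp).2.one_le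
      _ ≤ _ := primorial_le_four_pow _
  have h2 : j * (primesIn (2 ^ j) (2 ^ (j + 1))).card ≤ 4 * 2 ^ j := by
    rw [← pow_mul, show (4 : ℕ) = 2 ^ 2 by norm_num, ← pow_mul] at h1
    have := (Nat.pow_le_pow_iff_right (by norm_num)).mp h1
    refine this.trans (le_of_eq ?_)
    ring
  have h3 : sig (2 ^ j) (2 ^ (j + 1)) ≤ (primesIn (2 ^ j) (2 ^ (j + 1))).card * (1 / 2 ^ j) := by
    unfold sig
    rw [← nsmul_eq_mul]
    refine sum_le_card_nsmul _ _ _ fun p hp => ?_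
    have : (2 : ℝ) ^ j ≤ p := by exact_mod_cast (mem_primesIn.mp hp).1.le
    exact one_div_le_one_div_of_le (by positivity) this
  refine h3.trans ?_
  have hj' : (0 : ℝ) < j := by exact_mod_cast hj
  have h4 : (j : ℝ) * (primesIn (2 ^ j) (2 ^ (j + 1))).card ≤ 4 * 2 ^ j := by exact_mod_cast h2
  rw [mul_one_div, div_le_div_iff₀ (by positivity) hj']
  linarith

lemma sig_run (h : ℕ) (hh : 1 ≤ h) (t : ℕ) : sig (2 ^ h) (2 ^ (h + t)) ≤ 4 * t / h := by
  induction t with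
  | zero => simp [sig, primesIn]
  | succ t ih =>
    rw [sig_add _ (2 ^ (h + t)) _ (Nat.pow_le_pow_right (by norm_num) (by omega))
      (Nat.pow_le_pow_right (by norm_num) (by omega))]
    have h1 := sig_block (h + t) (by omega)
    have hh' : (0 : ℝ) < h := by exact_mod_cast hh
    have h2 : (4 : ℝ) / ((h + t : ℕ) : ℝ) ≤ 4 / h := by
      apply div_le_div_of_nonneg_left (by norm_num) hh'
      push_cast
      linarith [Nat.cast_nonneg (α := ℝ) t]
    have e : (4 : ℝ) * ((t + 1 : ℕ) : ℝ) / h = 4 * t / h + 4 / h := by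
      push_cast
      ring
    rw [e, ← add_assoc]
    linarith

lemma sig_iter (h : ℕ) (hh : 1 ≤ h) (i : ℕ) : sig (2 ^ h) (2 ^ (h * 2 ^ i)) ≤ 4 * i := by
  induction i with
  | zero => simp [sig, primesIn]
  | succ i ih =>
    have hp : 1 ≤ h * 2 ^ i := Nat.mul_pos hh (by positivity)
    have hle : h ≤ h * 2 ^ i := Nat.le_mul_of_pos_right _ (by positivity)
    have e : h * 2 ^ (i + 1) = h * 2 ^ i + h * 2 ^ i := by ring
    rw [e, sig_add _ (2 ^ (h * 2 ^ i)) _ (Nat.pow_le_pow_right (by norm_num) hle)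
      (Nat.pow_le_pow_right (by norm_num) (by omega))]
    have h1 := sig_run (h * 2 ^ i) hp (h * 2 ^ i)
    have hp' : (0 : ℝ) < ((h * 2 ^ i : ℕ) : ℝ) := by exact_mod_cast hp
    rw [mul_div_assoc, div_self hp'.ne'] at h1
    push_cast
    linarith

lemma sig_zero (s : ℕ) : sig 0 (2 ^ (2 ^ s)) ≤ 4 * s + 1 := by
  have h1 := sig_iter 1 le_rfl s
  rw [one_mul, pow_one] at h1
  rw [sig_add 0 2 _ (by norm_num) (Nat.le_self_pow (by positivity) 2)]
  have : sig 0 2 ≤ 1 := by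
    have e : primesIn 0 2 = {2} := by decide
    unfold sig
    rw [e]
    norm_num
  linarith

noncomputable def invHom : ℕ →* ℝ where
  toFun n := (n : ℝ)⁻¹
  map_one' := by simp
  map_mul' a b := by rw [Nat.cast_mul, mul_inv]

lemma euler_le (P D : Finset ℕ) (hP : ∀ p ∈ P, p.Prime)
    (hD : ∀ d ∈ D, d ≠ 0 ∧ ∀ p, p.Prime → p ∣ d → p ∈ P) :
    ∑ d ∈ D, (1 : ℝ) / d ≤ (∏ p ∈ P, (1 - (1 : ℝ) / p))⁻¹ := by
  have h := (EulerProduct.summable_and_hasSum_factoredNumbers_prod_filter_prime_geometric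
    (f := invHom) (fun {p} hp => by
      have : (1 : ℝ) < p := by exact_mod_cast hp.one_lt
      show ‖(p : ℝ)⁻¹‖ < 1
      rw [Real.norm_eq_abs, abs_of_pos (by positivity)]
      exact inv_lt_one_of_one_lt₀ this) P).2
  rw [filter_true_of_mem hP] at h
  have h2 := sum_le_hasSum (D.subtype (· ∈ Nat.factoredNumbers P)) (fun i _ => by
    show (0 : ℝ) ≤ ((i : ℕ) : ℝ)⁻¹
    positivity) h
  have h3 := sum_subtype_of_mem (fun d : ℕ => invHom d) (s := D) (p := (· ∈ Nat.factoredNumbers P))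
    (fun d hd => ⟨(hD d hd).1, fun p hp =>
      (hD d hd).2 p (Nat.prime_of_mem_primeFactorsList hp) (Nat.dvd_of_mem_primeFactorsList hp)⟩)
  rw [h3] at h2
  rw [← prod_inv_distrib]
  simpa [invHom] using h2

lemma V1_le (h : ℕ) (hh : 1 ≤ h) : ∏ p ∈ primesIn 0 (2 ^ h), (1 - (1 : ℝ) / p) ≤ 2 / h := by
  have h1 := euler_le (primesIn 0 (2 ^ h)) (Icc 1 (2 ^ h)) (fun p hp => (mem_primesIn.mp hp).2.2)
    (fun d hd => by
      rw [mem_Icc] at hd
      exact ⟨by omega, fun p hp hpd =>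
        mem_primesIn.mpr ⟨hp.pos, (Nat.le_of_dvd (by omega) hpd).trans hd.2, hp⟩⟩)
  have h2 := log_add_one_le_harmonic (2 ^ h)
  rw [harmonic_eq_sum_Icc] at h2
  have h3 : (h : ℝ) / 2 ≤ Real.log ((2 ^ h + 1 : ℕ) : ℝ) := by
    have a : Real.log ((2 : ℝ) ^ h) ≤ Real.log ((2 ^ h + 1 : ℕ) : ℝ) := by
      apply Real.log_le_log (by positivity)
      push_cast
      linarith
    rw [Real.log_pow] at a
    have := Real.log_two_gt_d9
    have hh' : (0 : ℝ) ≤ h := Nat.cast_nonneg _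
    nlinarith
  have h4 : (h : ℝ) / 2 ≤ (∏ p ∈ primesIn 0 (2 ^ h), (1 - (1 : ℝ) / p))⁻¹ := by
    refine h3.trans (h2.trans (le_trans (le_of_eq ?_) h1))
    push_cast
    simp
  have hh' : (0 : ℝ) < h := by exact_mod_cast hh
  have h5 : 0 < ∏ p ∈ primesIn 0 (2 ^ h), (1 - (1 : ℝ) / p) := by
    refine prod_pos fun p hp => ?_
    have : (1 : ℝ) < p := by exact_mod_cast (mem_primesIn.mp hp).2.2.one_lt
    rw [sub_pos, div_lt_one (by positivity)]
    exact this
  rw [le_inv_comm₀ (by positivity) h5] at h4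
  simpa using h4

lemma half_of_prime {p : ℕ} (hp : p.Prime) : 0 ≤ (1 : ℝ) / p ∧ (1 : ℝ) / p ≤ 1 / 2 := by
  have : (2 : ℝ) ≤ p := by exact_mod_cast hp.two_le
  exact ⟨by positivity, one_div_le_one_div_of_le (by norm_num) this⟩

lemma outer_le (h : ℕ) (hh : 1 ≤ h) (i : ℕ) (D : Finset ℕ)
    (hD : ∀ d ∈ D, d ≠ 0 ∧ d ≤ 2 ^ (h * 2 ^ i) ∧ ∀ p, p.Prime → p ∣ d → 2 ^ h < p) :
    ∑ d ∈ D, (1 : ℝ) / d ≤ 4096 ^ i := by
  have h1 := euler_le (primesIn (2 ^ h) (2 ^ (h * 2 ^ i))) D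
    (fun p hp => (mem_primesIn.mp hp).2.2) (fun d hd => ⟨(hD d hd).1, fun p hp hpd =>
      mem_primesIn.mpr ⟨(hD d hd).2.2 p hp hpd,
        (Nat.le_of_dvd (Nat.pos_of_ne_zero (hD d hd).1) hpd).trans (hD d hd).2.1, hp⟩⟩)
  have h2 := prod_ge_exp (fun p => (1 : ℝ) / p) (primesIn (2 ^ h) (2 ^ (h * 2 ^ i)))
    (fun p hp => half_of_prime (mem_primesIn.mp hp).2.2) (4 * i) (sig_iter h hh i)
  have h3 := inv_anti₀ (Real.exp_pos _) h2
  rw [← Real.exp_neg, neg_neg] at h3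
  refine h1.trans (h3.trans ?_)
  have h4 : Real.exp 8 ≤ 4096 := by
    have := Real.exp_one_lt_d9
    have e : Real.exp 8 = Real.exp 1 ^ 8 := by rw [← Real.exp_nat_mul]; norm_num
    rw [e]
    calc Real.exp 1 ^ 8 ≤ (2.72 : ℝ) ^ 8 := pow_le_pow_left₀ (Real.exp_pos _).le (by linarith) 8
      _ ≤ 4096 := by norm_num
  have e : 2 * (4 * (i : ℝ)) = i * 8 := by ring
  rw [e, Real.exp_nat_mul]
  exact pow_le_pow_left₀ (Real.exp_pos _).le h4 i

lemma rho_le (m r : ℕ) (hm : 0 < m) (hc : Nat.Coprime m (8 * r + 1)) :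
    ((range m).filter fun t : ℕ => (m : ℤ) ∣ (t : ℤ) ^ 2 - t - 2 * r).card ≤ m.divisors.card := by
  rcases ((range m).filter fun t : ℕ => (m : ℤ) ∣ (t : ℤ) ^ 2 - t - 2 * r).eq_empty_or_nonempty with
    he | ⟨a, ha⟩
  · rw [he]
    simp
  obtain ⟨k, hk⟩ := (mem_filter.mp ha).2
  have hc' : IsCoprime (m : ℤ) (8 * r + 1) := by
    have := Nat.isCoprime_iff_coprime.mpr hc
    simpa using this
  obtain ⟨α, β, hαβ⟩ := hc'
  have key : ∀ t : ℕ, (m : ℤ) ∣ (t : ℤ) ^ 2 - t - 2 * r → ∃ w : ℤ,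
      (m : ℤ) = w * Int.gcd m (t - a) ∧ w ∣ (t : ℤ) + a - 1 ∧
        IsCoprime w ((Int.gcd m (t - a) : ℕ) : ℤ) := by
    intro t ht
    have hg : 0 < Int.gcd m (t - a) := Int.gcd_pos_of_ne_zero_left _ (by exact_mod_cast hm.ne')
    obtain ⟨w, u, h1, h2, h3⟩ := Int.exists_gcd_one hg
    set g : ℤ := ((Int.gcd m (t - a) : ℕ) : ℤ) with hgdef
    have hg0 : g ≠ 0 := by
      simp only [hgdef]
      exact_mod_cast hg.ne'
    have h4 : w * g ∣ (u * ((t : ℤ) + a - 1)) * g := by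
      rw [← h2]
      have : u * ((t : ℤ) + a - 1) * g = ((t : ℤ) ^ 2 - t - 2 * r) - m * k := by
        rw [← hk]
        linear_combination (-((t : ℤ) + a - 1)) * h3
      rw [this]
      exact dvd_sub ht (dvd_mul_right _ _)
    have h5 : w ∣ (t : ℤ) + a - 1 :=
      (Int.isCoprime_iff_gcd_eq_one.mpr h1).dvd_of_dvd_mul_left
        ((mul_dvd_mul_iff_right hg0).mp h4)
    refine ⟨w, h2, h5, ?_⟩
    obtain ⟨c, hc⟩ := h5
    refine ⟨β * w * c ^ 2, α * w + β * (-2 * w * c * u + g * u ^ 2 - 4 * w * k), ?_⟩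
    have e1 : (2 * (a : ℤ) - 1) = w * c - u * g := by linear_combination hc - h3
    have e2 : (8 * (r : ℤ) + 1) = (w * c - u * g) ^ 2 - 4 * (w * g) * k := by
      rw [← e1, ← h2]
      linear_combination (-4) * hk
    rw [e2, h2] at hαβ
    linear_combination hαβ
  refine card_le_card_of_injOn (fun t : ℕ => Int.gcd m (t - a)) ?_ ?_
  · intro t _
    simp only [mem_coe, Nat.mem_divisors]
    refine ⟨?_, hm.ne'⟩
    have := Int.gcd_dvd_left (m : ℤ) (t - a)
    exact_mod_cast this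
  · intro s hs t ht hst
    simp only [coe_filter, mem_range, Set.mem_ofPred_eq] at hs ht hst
    obtain ⟨w, h1, h2, h3⟩ := key s hs.2
    obtain ⟨w', h1', h2', _⟩ := key t ht.2
    have hg : ((Int.gcd m (s - a) : ℕ) : ℤ) ≠ 0 := by
      have : 0 < Int.gcd m (s - a) := Int.gcd_pos_of_ne_zero_left _ (by exact_mod_cast hm.ne')
      exact_mod_cast this.ne'
    have hw : w' = w := by
      rw [← hst] at h1'
      exact mul_right_cancel₀ hg (h1'.symm.trans h1)
    rw [hw] at h2'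
    have d1 : w ∣ (s : ℤ) - t := by
      have := dvd_sub h2 h2'
      simpa using this
    have d2 : ((Int.gcd m (s - a) : ℕ) : ℤ) ∣ (s : ℤ) - t := by
      have a1 := Int.gcd_dvd_right (m : ℤ) (s - a)
      have a2 := Int.gcd_dvd_right (m : ℤ) (t - a)
      rw [← hst] at a2
      have := dvd_sub a1 a2
      simpa using this
    have d3 := h3.mul_dvd d1 d2
    rw [← h1] at d3
    have := Int.eq_zero_of_abs_lt_dvd d3 (by rw [abs_lt]; constructor <;> omega)
    omega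

end Pool.Agent.H.MP_58cc54_co
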